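import Mathlib
import Pool.Agent.Lib_helper86.Sid.Core
import Pool.Agent.SC.Stmts

/-!
# MP_c6effb_co: the reducible configurations of Lib_helper86/Sid for a general reduction property

Adaptation of `Lib_helper86/Sid` (Ctx, Hom, Config, Core): the field `ih` of `Ctx` is replaced by the
property `rem` used there.
-/

set_option autoImplicit false

namespace Pool.Agent.SD95

open Finset Classical Pool.Agent.Sid86

variable {V W : Type}

/-- a triangle-free graph `H` without an embedding of `G[A]`, such that the sets used by the reducible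
configurations can be removed -/
structure C6 (G : SimpleGraph V) (A : Finset V) [Fintype W] (H : SimpleGraph W) : Prop where
  tf : TF H
  dm : ∀ x y, x ≠ y → ¬ H.Adj x y → ∃ z, H.Adj x z ∧ H.Adj y z
  card : 2 * A.card + E2 G A ≤ 2 * Fintype.card W
  no : ¬ ∃ f : V → W, Emb G H A f
  deg2 : ∀ v ∈ A, 2 ≤ dg G A v
  rem : ∀ u ∈ A, ∀ T ⊆ A.filter (fun x => G.Adj u x), (∀ v ∈ T, dg G A v = 2) →
    (∀ v ∈ T, ∀ v' ∈ T, ¬ G.Adj v v') → ∀ Z : Finset W, Z.card ≤ 1 + 2 * T.card + dg G A u →
    Z.card ≤ 6 * (dg G A u / 2) →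
    ∃ f : V → W, Emb G H (A \ insert u T) f ∧ ∀ x ∈ A \ insert u T, f x ∉ Z

variable {G : SimpleGraph V} {A : Finset V} [Fintype W] [Nonempty W] {H : SimpleGraph W}

lemma C6.indep (h : C6 G A H) {I : Finset W} (hI : ∀ x ∈ I, ∀ y ∈ I, ¬ H.Adj x y) :
    I.card < A.card := by
  by_contra hc
  exact h.no (emb_of_indep hI (not_lt.1 hc))

lemma C6.nbhd (h : C6 G A H) (x : W) : (univ.filter (fun y => H.Adj x y)).card < A.card := by
  apply h.indep
  intro a ha b hb hab
  simp only [mem_filter, mem_univ, true_and] at ha hb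
  exact h.tf _ _ _ ha hab hb

lemma C6.edge (h : C6 G A H) : ∃ a b, H.Adj a b := by
  by_contra hc
  push Not at hc
  have := h.indep (I := univ) (fun x _ y _ => hc x y)
  rw [card_univ] at this
  have := h.card
  omega

lemma C6.E2_ge (h : C6 G A H) : 2 * A.card ≤ E2 G A := by
  unfold E2
  calc 2 * A.card = ∑ x ∈ A, 2 := by simp [mul_comm]
    _ ≤ ∑ x ∈ A, dg G A x := sum_le_sum (fun x hx => h.deg2 _ hx)

lemma C6.five (h : C6 G A H) : ∃ c : Fin 5 → W, ∀ i, H.Adj (c i) (c (i + 1)) := by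
  obtain ⟨a, b, hab⟩ := h.edge
  by_cases hcov : ∀ w, H.Adj a w ∨ H.Adj b w
  · exfalso
    have h1 := h.nbhd a
    have h2 := h.nbhd b
    have h3 : (univ : Finset W) ⊆ univ.filter (fun y => H.Adj a y) ∪
        univ.filter (fun y => H.Adj b y) := by
      intro w _
      simp only [mem_union, mem_filter, mem_univ, true_and]
      exact hcov w
    have h4 := (card_le_card h3).trans (card_union_le _ _)
    rw [card_univ] at h4
    have h5 := h.card
    have h6 := h.E2_ge
    omega
  · push Not at hcov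
    obtain ⟨w, hwa, hwb⟩ := hcov
    have hwa' : a ≠ w := by
      rintro rfl
      exact hwb hab.symm
    have hwb' : b ≠ w := by
      rintro rfl
      exact hwa hab
    obtain ⟨p, hp1, hp2⟩ := h.dm a w hwa' hwa
    obtain ⟨q, hq1, hq2⟩ := h.dm b w hwb' hwb
    refine ⟨![a, p, w, q, b], ?_⟩
    intro i
    fin_cases i
    · exact hp1
    · exact hp2.symm
    · exact hq2
    · exact hq1.symm
    · exact hab.symm


lemma C6.not_hom (h : C6 G A H) (φ : W → Fin 5)
    (hφ : ∀ x y, H.Adj x y → φ y = φ x + 1 ∨ φ x = φ y + 1) : False := by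
  set w : Fin 5 → ℕ := fun i => (univ.filter (fun x => φ x = i)).card with hw
  have hind : ∀ i, w i + w (i + 2) < A.card := by
    intro i
    have hdis : Disjoint (univ.filter (fun x => φ x = i)) (univ.filter (fun x => φ x = i + 2)) := by
      rw [disjoint_filter]
      intro x _ h1 h2
      have d : ∀ j : Fin 5, j ≠ j + 2 := by decide
      exact d i (h1.symm.trans h2)
    have := h.indep (I := (univ.filter (fun x => φ x = i)) ∪ (univ.filter (fun x => φ x = i + 2)))
      (by
        intro x hx y hy hxy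
        simp only [mem_union, mem_filter, mem_univ, true_and] at hx hy
        have d : ∀ j a b : Fin 5, (a = j ∨ a = j + 2) → (b = j ∨ b = j + 2) →
          ¬ (b = a + 1 ∨ a = b + 1) := by decide
        exact d i _ _ hx hy (hφ x y hxy))
    rwa [card_union_of_disjoint hdis] at this
  have hsum : ∑ i, w i = Fintype.card W := by
    rw [← card_univ (α := W)]
    exact (card_eq_sum_card_fiberwise (f := φ) (s := univ) (t := univ) (fun x _ => mem_coe.2 (mem_univ _))).symm
  obtain ⟨i0, -, hmax⟩ := exists_max_image (univ : Finset (Fin 5)) (fun i => w i + w (i + 2))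
    ⟨0, mem_univ _⟩
  have hsum' : w i0 + w (i0 + 1) + w (i0 + 2) + w (i0 + 3) + w (i0 + 4) = Fintype.card W := by
    rw [← hsum, Fin.sum_univ_five]
    have gen : ∀ i : Fin 5, w i + w (i + 1) + w (i + 2) + w (i + 3) + w (i + 4)
        = w 0 + w 1 + w 2 + w 3 + w 4 := by
      intro i
      fin_cases i
      · rfl
      · change w 1 + w 2 + w 3 + w 4 + w 0 = _
        omega
      · change w 2 + w 3 + w 4 + w 0 + w 1 = _
        omega
      · change w 3 + w 4 + w 0 + w 1 + w 2 = _
        omega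
      · change w 4 + w 0 + w 1 + w 2 + w 3 = _
        omega
    exact gen i0
  have m1 : w (i0 + 1) + w (i0 + 1 + 2) ≤ w i0 + w (i0 + 2) := hmax (i0 + 1) (mem_univ _)
  have m2 : w (i0 + 2) + w (i0 + 2 + 2) ≤ w i0 + w (i0 + 2) := hmax (i0 + 2) (mem_univ _)
  have m3 : w (i0 + 3) + w (i0 + 3 + 2) ≤ w i0 + w (i0 + 2) := hmax (i0 + 3) (mem_univ _)
  have m4 : w (i0 + 4) + w (i0 + 4 + 2) ≤ w i0 + w (i0 + 2) := hmax (i0 + 4) (mem_univ _)
  have d1 : ∀ j : Fin 5, j + 1 + 2 = j + 3 := by decide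
  have d2 : ∀ j : Fin 5, j + 2 + 2 = j + 4 := by decide
  have d3 : ∀ j : Fin 5, j + 3 + 2 = j := by decide
  have d4 : ∀ j : Fin 5, j + 4 + 2 = j + 1 := by decide
  rw [d1] at m1
  rw [d2] at m2
  rw [d3] at m3
  rw [d4] at m4
  have hk := hind i0
  have hcard := h.card
  have hE := h.E2_ge
  set k := A.card with hkdef
  set n := Fintype.card W with hndef
  obtain ⟨t, ht⟩ : ∃ t, t + (w i0 + w (i0 + 2)) = k := ⟨k - (w i0 + w (i0 + 2)), by omega⟩
  obtain ⟨T, hTA, hTc, hTs⟩ := min_sum (dg G A) k A rfl t (by omega)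
  set N : Finset V := (A.filter (fun x => ∃ y ∈ T, G.Adj y x)) \ T with hN
  have hNc : N.card ≤ ∑ x ∈ T, dg G A x := by
    have : N ⊆ T.biUnion (fun y => A.filter (fun x => G.Adj y x)) := by
      intro x hx
      rw [hN, mem_sdiff, mem_filter] at hx
      obtain ⟨⟨hxA, y, hy, hyx⟩, _⟩ := hx
      exact mem_biUnion.2 ⟨y, hy, mem_filter.2 ⟨hxA, hyx⟩⟩
    exact (card_le_card this).trans card_biUnion_le
  have hS : (∑ x ∈ T, dg G A x) ≤ w i0 := by
    have hTs' : ((k : ℤ)) * ((∑ x ∈ T, dg G A x : ℕ) : ℤ) ≤ (t : ℤ) * ((E2 G A : ℕ) : ℤ) := by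
      exact_mod_cast hTs
    have := arith1 (k := k) (n := n) (s := (w i0 + w (i0 + 2) : ℕ)) (t := t) (E := E2 G A)
      (S := (∑ x ∈ T, dg G A x : ℕ)) (w1 := w i0) (by omega) (by omega) (by omega) (by omega)
      (by omega) (by omega) hTs'
    exact_mod_cast this
  have hNw : N.card ≤ w i0 := hNc.trans hS
  obtain ⟨g4, g4m, g4i⟩ := exists_injOn (S := T) (P := univ.filter (fun x => φ x = i0 + 3))
    (show T.card ≤ w (i0 + 3) by omega)
  obtain ⟨g1, g1m, g1i⟩ := exists_injOn (S := N) (P := univ.filter (fun x => φ x = i0))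
    (show N.card ≤ w i0 from hNw)
  set Q : Finset W := ((univ.filter (fun x => φ x = i0)) ∪ (univ.filter (fun x => φ x = i0 + 2))) \
    N.image g1 with hQ
  have hQc : ((A \ T) \ N).card ≤ Q.card := by
    have hdis : Disjoint (univ.filter (fun x => φ x = i0)) (univ.filter (fun x => φ x = i0 + 2)) := by
      rw [disjoint_filter]
      intro x _ h1 h2
      have d : ∀ j : Fin 5, j ≠ j + 2 := by decide
      exact d i0 (h1.symm.trans h2)
    have e1 : (N.image g1).card ≤ N.card := card_image_le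
    have e2 : ((univ.filter (fun x => φ x = i0)) ∪ (univ.filter (fun x => φ x = i0 + 2))).card
        = w i0 + w (i0 + 2) := card_union_of_disjoint hdis
    have e3 := le_card_sdiff (N.image g1) ((univ.filter (fun x => φ x = i0)) ∪
      (univ.filter (fun x => φ x = i0 + 2)))
    rw [e2] at e3
    have e4 : N ⊆ A \ T := by
      intro x hx
      rw [hN, mem_sdiff, mem_filter] at hx
      exact mem_sdiff.2 ⟨hx.1.1, hx.2⟩
    have e5 := card_sdiff_add_card_eq_card e4
    have e6 := card_sdiff_add_card_eq_card hTA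
    rw [← hQ] at e3
    omega
  obtain ⟨g3, g3m, g3i⟩ := exists_injOn hQc
  simp only [mem_filter, mem_univ, true_and] at g4m g1m
  have g3m' : ∀ x ∈ (A \ T) \ N, (φ (g3 x) = i0 ∨ φ (g3 x) = i0 + 2) ∧ g3 x ∉ N.image g1 := by
    intro x hx
    have := g3m x hx
    rw [hQ, mem_sdiff, mem_union, mem_filter, mem_filter] at this
    simpa using this
  have dd1 : ∀ j : Fin 5, j + 3 ≠ j := by decide
  have dd2 : ∀ j : Fin 5, j + 3 ≠ j + 2 := by decide
  apply h.no
  refine ⟨fun x => if x ∈ T then g4 x else if x ∈ N then g1 x else g3 x, ?_, ?_⟩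
  · intro x hx y hy hxy
    have hx' : x ∈ A := hx
    have hy' : y ∈ A := hy
    simp only at hxy
    by_cases xT : x ∈ T <;> by_cases yT : y ∈ T
    · rw [if_pos xT, if_pos yT] at hxy
      exact g4i xT yT hxy
    · exfalso
      rw [if_pos xT, if_neg yT] at hxy
      have h4 := g4m x xT
      by_cases yN : y ∈ N
      · rw [if_pos yN] at hxy
        have := g1m y yN
        rw [← hxy, h4] at this
        exact dd1 _ this
      · rw [if_neg yN] at hxy
        have := (g3m' y (mem_sdiff.2 ⟨mem_sdiff.2 ⟨hy', yT⟩, yN⟩)).1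
        rw [← hxy, h4] at this
        rcases this with h5 | h5
        · exact dd1 _ h5
        · exact dd2 _ h5
    · exfalso
      rw [if_neg xT, if_pos yT] at hxy
      have h4 := g4m y yT
      by_cases xN : x ∈ N
      · rw [if_pos xN] at hxy
        have := g1m x xN
        rw [hxy, h4] at this
        exact dd1 _ this
      · rw [if_neg xN] at hxy
        have := (g3m' x (mem_sdiff.2 ⟨mem_sdiff.2 ⟨hx', xT⟩, xN⟩)).1
        rw [hxy, h4] at this
        rcases this with h5 | h5
        · exact dd1 _ h5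
        · exact dd2 _ h5
    · rw [if_neg xT, if_neg yT] at hxy
      by_cases xN : x ∈ N <;> by_cases yN : y ∈ N
      · rw [if_pos xN, if_pos yN] at hxy
        exact g1i xN yN hxy
      · exfalso
        rw [if_pos xN, if_neg yN] at hxy
        have := (g3m' y (mem_sdiff.2 ⟨mem_sdiff.2 ⟨hy', yT⟩, yN⟩)).2
        rw [← hxy] at this
        exact this (mem_image_of_mem _ xN)
      · exfalso
        rw [if_neg xN, if_pos yN] at hxy
        have := (g3m' x (mem_sdiff.2 ⟨mem_sdiff.2 ⟨hx', xT⟩, xN⟩)).2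
        rw [hxy] at this
        exact this (mem_image_of_mem _ yN)
      · rw [if_neg xN, if_neg yN] at hxy
        exact g3i (mem_coe.2 (mem_sdiff.2 ⟨mem_sdiff.2 ⟨hx', xT⟩, xN⟩))
          (mem_coe.2 (mem_sdiff.2 ⟨mem_sdiff.2 ⟨hy', yT⟩, yN⟩)) hxy
  · -- phi-values
    have hval : ∀ x ∈ A, x ∉ T → (φ (if x ∈ N then g1 x else g3 x) = i0 ∨
        φ (if x ∈ N then g1 x else g3 x) = i0 + 2) := by
      intro x hx xT
      by_cases xN : x ∈ N
      · rw [if_pos xN]
        exact Or.inl (g1m x xN)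
      · rw [if_neg xN]
        exact (g3m' x (mem_sdiff.2 ⟨mem_sdiff.2 ⟨hx, xT⟩, xN⟩)).1
    have hvalN : ∀ x ∈ A, x ∉ T → ∀ y ∈ T, G.Adj y x → φ (if x ∈ N then g1 x else g3 x) = i0 := by
      intro x hx xT y hy hyx
      have xN : x ∈ N := by
        rw [hN, mem_sdiff, mem_filter]
        exact ⟨⟨hx, y, hy, hyx⟩, xT⟩
      rw [if_pos xN]
      exact g1m x xN
    intro x hx y hy hxy hadj
    simp only at hadj
    have hh := hφ _ _ hadj
    by_cases xT : x ∈ T <;> by_cases yT : y ∈ T
    · rw [if_pos xT, if_pos yT, g4m x xT, g4m y yT] at hh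
      have d : ∀ j : Fin 5, ¬ (j + 3 = j + 3 + 1 ∨ j + 3 = j + 3 + 1) := by decide
      exact d _ hh
    · rw [if_pos xT, if_neg yT, g4m x xT, hvalN y hy yT x xT hxy] at hh
      have d : ∀ j : Fin 5, ¬ (j = j + 3 + 1 ∨ j + 3 = j + 1) := by decide
      exact d _ hh
    · rw [if_neg xT, if_pos yT, g4m y yT, hvalN x hx xT y yT hxy.symm] at hh
      have d : ∀ j : Fin 5, ¬ (j + 3 = j + 1 ∨ j = j + 3 + 1) := by decide
      exact d _ hh
    · rw [if_neg xT, if_neg yT] at hh
      have d : ∀ j a b : Fin 5, (a = j ∨ a = j + 2) → (b = j ∨ b = j + 2) →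
          ¬ (b = a + 1 ∨ a = b + 1) := by decide
      exact d i0 _ _ (hval x hx xT) (hval y hy yT) hh


lemma C6.setup (h : C6 G A H) {u : V} (hu : u ∈ A) {T : Finset V}
    (hT : T ⊆ A.filter (fun x => G.Adj u x)) (h2 : ∀ v ∈ T, dg G A v = 2)
    (hTT : ∀ v ∈ T, ∀ v' ∈ T, ¬ G.Adj v v') {Z : Finset W}
    (hZ : Z.card ≤ 1 + 2 * T.card + dg G A u) (hZ' : Z.card ≤ 6 * (dg G A u / 2)) :
    ∃ (f : V → W) (c : V → V), Emb G H (A \ insert u T) f ∧
      (∀ x ∈ A \ insert u T, f x ∉ Z) ∧
      (∀ v ∈ T, c v ∈ A ∧ c v ∉ T ∧ c v ≠ u ∧ G.Adj v (c v)) ∧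
      (∀ y, (∀ x ∈ A \ insert u T, f x ≠ y) →
        (∀ x ∈ A \ insert u T, G.Adj u x → ¬ H.Adj y (f x)) →
        ¬ ∃ g : V → W, Set.InjOn g T ∧ ∀ v ∈ T, (∀ x ∈ A \ insert u T, f x ≠ g v) ∧
          g v ≠ y ∧ ¬ H.Adj (g v) y ∧ ¬ H.Adj (g v) (f (c v))) := by
  have huT : u ∉ T := by
    intro hcon
    have := (mem_filter.1 (hT hcon)).2
    exact G.loopless.irrefl _ this
  have hTA : T ⊆ A := fun x hx => (mem_filter.1 (hT hx)).1
  have hex : ∀ v, ∃ c, v ∈ T → (c ∈ A ∧ c ∉ T ∧ c ≠ u ∧ G.Adj v c ∧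
      ∀ x ∈ A, G.Adj v x → x = u ∨ x = c) := by
    intro v
    by_cases hv : v ∈ T
    · have hd := h2 v hv
      unfold dg at hd
      obtain ⟨a, b, hab, hs⟩ := card_eq_two.1 hd
      have huv : u ∈ A.filter (fun x => G.Adj v x) :=
        mem_filter.2 ⟨hu, (mem_filter.1 (hT hv)).2.symm⟩
      have hall : ∀ x ∈ A, G.Adj v x → x = a ∨ x = b := by
        intro x hx hvx
        have : x ∈ A.filter (fun x => G.Adj v x) := mem_filter.2 ⟨hx, hvx⟩
        rw [hs] at this
        simpa using this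
      have ha : a ∈ A ∧ G.Adj v a := by
        have : a ∈ A.filter (fun x => G.Adj v x) := by rw [hs]; simp
        exact mem_filter.1 this
      have hb : b ∈ A ∧ G.Adj v b := by
        have : b ∈ A.filter (fun x => G.Adj v x) := by rw [hs]; simp
        exact mem_filter.1 this
      rw [hs] at huv
      simp only [mem_insert, mem_singleton] at huv
      rcases huv with rfl | rfl
      · exact ⟨b, fun _ => ⟨hb.1, fun hbT => hTT v hv b hbT hb.2, hab.symm, hb.2, hall⟩⟩
      · exact ⟨a, fun _ => ⟨ha.1, fun haT => hTT v hv a haT ha.2, hab, ha.2,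
          fun x hx hvx => (hall x hx hvx).symm⟩⟩
    · exact ⟨v, fun hcon => absurd hcon hv⟩
  choose c hc using hex
  obtain ⟨f, hf, hfZ⟩ := h.rem u hu T hT h2 hTT Z hZ hZ'
  refine ⟨f, c, hf, hfZ, fun v hv => ⟨(hc v hv).1, (hc v hv).2.1, (hc v hv).2.2.1,
    (hc v hv).2.2.2.1⟩, ?_⟩
  intro y hy hy2 hg
  obtain ⟨g, hgi, hg⟩ := hg
  exact h.no (emb_config huT (fun v hv x hx hvx => (hc v hv).2.2.2.2 x hx hvx)
    (fun v hv => ⟨(hc v hv).2.1, (hc v hv).2.2.1, (hc v hv).1⟩) hf hy hy2 hgi
    (fun v hv => (hg v hv).1) (fun v hv => (hg v hv).2))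

/-- number of neighbours outside `T` -/
lemma out_card {u : V} {T : Finset V} (hT : T ⊆ A.filter (fun x => G.Adj u x)) :
    ((A.filter (fun x => G.Adj u x)) \ T).card = dg G A u - T.card := by
  rw [card_sdiff_of_subset hT]
  rfl

/-- a vertex of degree 2 has no neighbour of degree at most 3 -/
lemma C6.config1 (h : C6 G A H) {u v : V} (hu : u ∈ A) (hv : v ∈ A) (huv : G.Adj u v)
    (hdv : dg G A v = 2) (hdu : dg G A u ≤ 3) : False := by
  obtain ⟨c5, hc5⟩ := h.five
  have hT : ({v} : Finset V) ⊆ A.filter (fun x => G.Adj u x) := by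
    intro x hx
    rw [mem_singleton] at hx
    subst hx
    exact mem_filter.2 ⟨hv, huv⟩
  have hZc : (univ.image c5).card ≤ 5 := by
    refine card_image_le.trans ?_
    simp
  obtain ⟨f, c, hf, hfZ, hc, hno⟩ := h.setup hu hT (by simpa using hdv)
    (by simp) (Z := univ.image c5) (by
      have := h.deg2 _ hu
      rw [card_singleton]
      omega) (by
      have := h.deg2 _ hu
      omega)
  have hO := out_card (G := G) (A := A) hT
  rw [card_singleton] at hO
  have hO2 : ((A.filter (fun x => G.Adj u x)) \ {v}).card ≤ 2 := by omega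
  obtain ⟨a, b, hab⟩ : ∃ a b, (A.filter (fun x => G.Adj u x)) \ {v} ⊆ {a, b} := by
    obtain ⟨s, hs1, hs2⟩ : ∃ a b : V, (A.filter (fun x => G.Adj u x)) \ {v} ⊆ {a, b} := by
      rcases Nat.lt_or_ge ((A.filter (fun x => G.Adj u x)) \ {v}).card 2 with h1 | h1
      · rcases Nat.lt_or_ge ((A.filter (fun x => G.Adj u x)) \ {v}).card 1 with h0 | h0
        · have : (A.filter (fun x => G.Adj u x)) \ {v} = ∅ := card_eq_zero.1 (by omega)
          exact ⟨v, v, by rw [this]; simp⟩
        · obtain ⟨a, ha⟩ := card_eq_one.1 (show ((A.filter (fun x => G.Adj u x)) \ {v}).card = 1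
            by omega)
          exact ⟨a, a, by rw [ha]; simp⟩
      · obtain ⟨a, b, -, hs⟩ := card_eq_two.1
          (show ((A.filter (fun x => G.Adj u x)) \ {v}).card = 2 by omega)
        exact ⟨a, b, by rw [hs]⟩
    exact ⟨s, hs1, hs2⟩
  obtain ⟨i, hi1, hi2⟩ := cover2 h.tf hc5 (f a) (f b)
  obtain ⟨j, hj1, hj2, hj3⟩ := cover3 h.tf hc5 (c5 i) (f (c v))
  refine hno (c5 i) ?_ ?_ ⟨fun _ => c5 j, by simp, ?_⟩
  · intro x hx hfx
    exact hfZ x hx (by rw [hfx]; exact mem_image_of_mem _ (mem_univ _))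
  · intro x hx hux
    have hx' : x ∈ (A.filter (fun x => G.Adj u x)) \ {v} := by
      rw [mem_sdiff, mem_insert] at hx
      rw [mem_sdiff, mem_filter]
      exact ⟨⟨hx.1, hux⟩, fun hh => hx.2 (Or.inr hh)⟩
    have := hab hx'
    simp only [mem_insert, mem_singleton] at this
    rcases this with rfl | rfl
    · exact fun hh => hi1 hh.symm
    · exact fun hh => hi2 hh.symm
  · intro w hw
    rw [mem_singleton] at hw
    subst hw
    refine ⟨?_, hj1, fun hh => hj2 hh.symm, fun hh => hj3 hh.symm⟩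
    intro x hx hfx
    exact hfZ x hx (by rw [hfx]; exact mem_image_of_mem _ (mem_univ _))

lemma C6.rich (h : C6 G A H) : ∃ Z : Finset W, Z.card ≤ 8 ∧ Rich H Z := by
  obtain ⟨c, hc⟩ := h.five
  rcases dich h.tf h.dm hc with h1 | ⟨φ, hφ⟩
  · exact h1
  · exact (h.not_hom φ hφ).elim

lemma C6.indepT (h : C6 G A H) {u : V} {T : Finset V}
    (hT : T ⊆ A.filter (fun x => G.Adj u x)) (h2 : ∀ v ∈ T, dg G A v = 2) :
    ∀ v ∈ T, ∀ v' ∈ T, ¬ G.Adj v v' := by
  intro v hv v' hv' hvv'
  exact h.config1 (mem_filter.1 (hT hv)).1 (mem_filter.1 (hT hv')).1 hvv' (h2 v' hv')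
    (by rw [h2 v hv]; omega)

/-- a vertex of degree 4 has at most one neighbour of degree 2 -/
lemma C6.config2 (h : C6 G A H) {u : V} (hu : u ∈ A) {T : Finset V}
    (hT : T ⊆ A.filter (fun x => G.Adj u x)) (h2 : ∀ v ∈ T, dg G A v = 2)
    (hTc : T.card = 2) (hdu : dg G A u = 4) : False := by
  obtain ⟨Z, hZc, hR⟩ := h.rich
  obtain ⟨f, c, hf, hfZ, hc, hno⟩ := h.setup hu hT h2 (h.indepT hT h2) (Z := Z) (by omega) (by omega)
  have hO := out_card (G := G) (A := A) hT
  obtain ⟨a, b, -, hab⟩ := card_eq_two.1 (show ((A.filter (fun x => G.Adj u x)) \ T).card = 2 by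
    omega)
  obtain ⟨v1, v2, hv12, hTe⟩ := card_eq_two.1 hTc
  obtain ⟨c5, hc5, hc5Z, -⟩ := hR (f a)
  obtain ⟨i, hi1, hi2⟩ := cover2 h.tf hc5 (f a) (f b)
  obtain ⟨z1, hz1, z2, hz2, hz12, hz1', hz2'⟩ := rich_two h.tf hR (c5 i) (f (c v1))
  obtain ⟨y1, hy1, y2, hy2, hy12, hy1', hy2'⟩ := rich_two h.tf hR (c5 i) (f (c v2))
  obtain ⟨p, hp, hpz, hpp⟩ : ∃ p ∈ Z, p ≠ z1 ∧ (p ≠ c5 i ∧ ¬ H.Adj p (c5 i) ∧
      ¬ H.Adj p (f (c v2))) := by
    by_cases hh : y1 = z1
    · exact ⟨y2, hy2, fun h3 => hy12 (hh.trans h3.symm), hy2'⟩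
    · exact ⟨y1, hy1, hh, hy1'⟩
  refine hno (c5 i) ?_ ?_ ⟨fun x => if x = v1 then z1 else p, ?_, ?_⟩
  · intro x hx hfx
    exact hfZ x hx (by rw [hfx]; exact hc5Z i)
  · intro x hx hux
    have hx' : x ∈ (A.filter (fun x => G.Adj u x)) \ T := by
      rw [mem_sdiff, mem_insert] at hx
      rw [mem_sdiff, mem_filter]
      exact ⟨⟨hx.1, hux⟩, fun hh => hx.2 (Or.inr hh)⟩
    rw [hab] at hx'
    simp only [mem_insert, mem_singleton] at hx'
    rcases hx' with rfl | rfl
    · exact fun hh => hi1 hh.symm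
    · exact fun hh => hi2 hh.symm
  · intro x hx y hy hxy
    have hx' : x = v1 ∨ x = v2 := by
      have : x ∈ T := hx
      rw [hTe] at this
      simpa using this
    have hy' : y = v1 ∨ y = v2 := by
      have : y ∈ T := hy
      rw [hTe] at this
      simpa using this
    simp only at hxy
    rcases hx' with rfl | rfl <;> rcases hy' with rfl | rfl
    · rfl
    · rw [if_pos rfl, if_neg hv12.symm] at hxy
      exact absurd hxy.symm hpz
    · rw [if_pos rfl, if_neg hv12.symm] at hxy
      exact absurd hxy hpz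
    · rfl
  · intro w hw
    rw [hTe] at hw
    simp only [mem_insert, mem_singleton] at hw
    by_cases hw1 : w = v1
    · subst hw1
      simp only [if_true]
      refine ⟨?_, hz1'⟩
      intro x hx hfx
      exact hfZ x hx (by rw [hfx]; exact hz1)
    · have hw2 : w = v2 := hw.resolve_left hw1
      subst hw2
      simp only [if_neg hw1]
      refine ⟨?_, hpp⟩
      intro x hx hfx
      exact hfZ x hx (by rw [hfx]; exact hp)

/-- a vertex of degree 5 has at most three neighbours of degree 2 -/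
lemma C6.config4 (h : C6 G A H) {u : V} (hu : u ∈ A) {T : Finset V}
    (hT : T ⊆ A.filter (fun x => G.Adj u x)) (h2 : ∀ v ∈ T, dg G A v = 2)
    (hTc : T.card = 4) (hdu : dg G A u = 5) : False := by
  obtain ⟨Z, hZc, hR⟩ := h.rich
  obtain ⟨f, c, hf, hfZ, hc, hno⟩ := h.setup hu hT h2 (h.indepT hT h2) (Z := Z) (by omega) (by omega)
  have hO := out_card (G := G) (A := A) hT
  obtain ⟨a, ha⟩ := card_eq_one.1 (show ((A.filter (fun x => G.Adj u x)) \ T).card = 1 by
    omega)
  have huT : u ∉ T := by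
    intro hcon
    exact G.loopless.irrefl _ (mem_filter.1 (hT hcon)).2
  have hTA : T ⊆ A := fun x hx => (mem_filter.1 (hT hx)).1
  set S := insert u T with hS
  have hSA : S ⊆ A := insert_subset hu hTA
  have hSc : S.card = 5 := by rw [hS, card_insert_of_notMem huT, hTc]
  -- the free positions
  set F : Finset W := univ \ (A \ S).image f with hF
  have hFmem : ∀ y, y ∈ F ↔ ∀ x ∈ A \ S, f x ≠ y := by
    intro y
    rw [hF, mem_sdiff, mem_image]
    constructor
    · rintro ⟨-, h1⟩ x hx hxy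
      exact h1 ⟨x, hx, hxy⟩
    · intro h1
      exact ⟨mem_univ _, fun ⟨x, hx, hxy⟩ => h1 x hx hxy⟩
  have hZF : Z ⊆ F := by
    intro z hz
    rw [hFmem]
    intro x hx hxz
    exact hfZ x hx (hxz ▸ hz)
  have hFc : F.card + A.card = Fintype.card W + 5 := by
    have e1 : ((A \ S).image f).card = (A \ S).card := card_image_of_injOn hf.1
    have e2 : (A \ S).card + S.card = A.card := card_sdiff_add_card_eq_card hSA
    have e3 : F.card + ((A \ S).image f).card = Fintype.card W := by
      rw [hF, card_sdiff_add_card_eq_card (subset_univ _), card_univ]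
    omega
  set t : W → V → Finset W := fun y v => F.filter (fun z => z ≠ y ∧ ¬ H.Adj z y ∧
    ¬ H.Adj z (f (c v))) with ht
  have ht2 : ∀ y v, 2 ≤ (t y v).card := by
    intro y v
    obtain ⟨z1, hz1, z2, hz2, hz12, hz1', hz2'⟩ := rich_two h.tf hR y (f (c v))
    have : ({z1, z2} : Finset W) ⊆ t y v := by
      intro z hz
      simp only [mem_insert, mem_singleton] at hz
      rcases hz with rfl | rfl
      · exact mem_filter.2 ⟨hZF hz1, hz1'⟩
      · exact mem_filter.2 ⟨hZF hz2, hz2'⟩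
    calc 2 = ({z1, z2} : Finset W).card := (card_pair hz12).symm
      _ ≤ _ := card_le_card this
  -- the list of `u`
  set L : W → Prop := fun y => y ∈ F ∧ ¬ H.Adj y (f a) with hL
  have hbad : ∀ y, L y → 3 ≤ (T.filter (fun v => (t y v).card ≤ 3)).card := by
    intro y hy
    have hno' := hno y ((hFmem y).1 hy.1) (by
      intro x hx hux
      have hx' : x ∈ (A.filter (fun x => G.Adj u x)) \ T := by
        rw [hS, mem_sdiff, mem_insert] at hx
        rw [mem_sdiff, mem_filter]
        exact ⟨⟨hx.1, hux⟩, fun hh => hx.2 (Or.inr hh)⟩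
      rw [ha, mem_singleton] at hx'
      rw [hx']
      exact hy.2)
    have hall : ¬ ∀ s : Finset {v // v ∈ T}, s.card ≤ (s.biUnion (fun v => t y v.1)).card := by
      intro hcon
      obtain ⟨g, hg1, hg2⟩ := (Finset.all_card_le_biUnion_card_iff_exists_injective
        (fun v : {v // v ∈ T} => t y v.1)).1 hcon
      apply hno'
      refine ⟨fun v => if hv : v ∈ T then g ⟨v, hv⟩ else y, ?_, ?_⟩
      · intro x hx x' hx' hxx
        have hx1 : x ∈ T := hx
        have hx2 : x' ∈ T := hx'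
        simp only [hx1, hx2, dif_pos] at hxx
        exact congrArg Subtype.val (hg1 hxx)
      · intro v hv
        simp only [hv, dif_pos]
        have := hg2 ⟨v, hv⟩
        rw [ht, mem_filter] at this
        exact ⟨(hFmem _).1 this.1, this.2⟩
    push Not at hall
    obtain ⟨s, hs⟩ := hall
    have hsne : s.Nonempty := by
      rw [nonempty_iff_ne_empty]
      rintro rfl
      simp at hs
    have hsT : s.card ≤ 4 := by
      have : s.card ≤ Fintype.card {v // v ∈ T} := card_le_univ s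
      rwa [Fintype.card_coe, hTc] at this
    have hle : ∀ v ∈ s, (t y v.1).card ≤ (s.biUnion (fun v => t y v.1)).card := by
      intro v hv
      exact card_le_card (subset_biUnion_of_mem (fun v : {v // v ∈ T} => t y v.1) hv)
    obtain ⟨v0, hv0⟩ := hsne
    have h3 : 3 ≤ s.card := by
      have := ht2 y v0.1
      have := hle v0 hv0
      omega
    have hsub : s.image (fun v => v.1) ⊆ T.filter (fun v => (t y v).card ≤ 3) := by
      intro v hv
      obtain ⟨v', hv', rfl⟩ := mem_image.1 hv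
      refine mem_filter.2 ⟨v'.2, ?_⟩
      have := hle v' hv'
      omega
    calc 3 ≤ s.card := h3
      _ = (s.image (fun v => v.1)).card := (card_image_of_injective _ Subtype.val_injective).symm
      _ ≤ _ := card_le_card hsub
  have hLind : ∀ y y', H.Adj y y' → L y → L y' → False := by
    intro y y' hyy hy hy'
    have b1 := hbad y hy
    have b2 := hbad y' hy'
    -- a common bad index
    obtain ⟨v, hv⟩ : ((T.filter (fun v => (t y v).card ≤ 3)) ∩
        (T.filter (fun v => (t y' v).card ≤ 3))).Nonempty := by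
      rw [← card_pos]
      have e1 := card_union_add_card_inter (T.filter (fun v => (t y v).card ≤ 3))
        (T.filter (fun v => (t y' v).card ≤ 3))
      have e2 : ((T.filter (fun v => (t y v).card ≤ 3)) ∪
        (T.filter (fun v => (t y' v).card ≤ 3))).card ≤ T.card :=
        card_le_card (union_subset (filter_subset _ _) (filter_subset _ _))
      omega
    rw [mem_inter, mem_filter, mem_filter] at hv
    obtain ⟨⟨hvT, hv1⟩, -, hv2⟩ := hv
    have hsub : F.filter (fun z => ¬ H.Adj z (f (c v))) ⊆ (t y v ∪ t y' v) ∪ {y, y'} := by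
      intro z hz
      rw [mem_filter] at hz
      by_cases h1 : z = y
      · simp [h1]
      by_cases h2' : z = y'
      · simp [h2']
      by_cases h3 : H.Adj z y
      · by_cases h4 : H.Adj z y'
        · exact (h.tf _ _ _ h3 hyy h4).elim
        · refine mem_union_left _ (mem_union_right _ (mem_filter.2 ⟨hz.1, h2', h4, hz.2⟩))
      · refine mem_union_left _ (mem_union_left _ (mem_filter.2 ⟨hz.1, h1, h3, hz.2⟩))
    have hc8 : (F.filter (fun z => ¬ H.Adj z (f (c v)))).card ≤ 8 := by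
      refine (card_le_card hsub).trans ?_
      have e1 := card_union_le (t y v ∪ t y' v) {y, y'}
      have e2 := card_union_le (t y v) (t y' v)
      have e3 : ({y, y'} : Finset W).card ≤ 2 := card_le_two
      omega
    have hcF : F.card ≤ (F.filter (fun z => ¬ H.Adj z (f (c v)))).card +
        (univ.filter (fun z => H.Adj (f (c v)) z)).card := by
      have e1 : F ⊆ (F.filter (fun z => ¬ H.Adj z (f (c v)))) ∪
          (univ.filter (fun z => H.Adj (f (c v)) z)) := by
        intro z hz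
        by_cases h1 : H.Adj z (f (c v))
        · exact mem_union_right _ (mem_filter.2 ⟨mem_univ _, h1.symm⟩)
        · exact mem_union_left _ (mem_filter.2 ⟨hz, h1⟩)
      exact (card_le_card e1).trans (card_union_le _ _)
    have hnb := h.nbhd (f (c v))
    -- many edges
    have hcv := hc v hvT
    have hd4 : 4 ≤ dg G A (c v) := by
      by_contra hcon
      exact h.config1 hcv.1 (hTA hvT) hcv.2.2.2.symm (h2 v hvT) (by omega)
    have hEbig : 2 * A.card + 5 ≤ E2 G A := by
      have e1 := add_sum_erase A (dg G A) hu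
      have hcmem : c v ∈ A.erase u := mem_erase.2 ⟨hcv.2.2.1, hcv.1⟩
      have e2 := add_sum_erase (A.erase u) (dg G A) hcmem
      have e3 : 2 * ((A.erase u).erase (c v)).card ≤
          ∑ x ∈ (A.erase u).erase (c v), dg G A x := by
        calc 2 * ((A.erase u).erase (c v)).card = ∑ x ∈ (A.erase u).erase (c v), 2 := by
              simp [mul_comm]
          _ ≤ _ := sum_le_sum (fun x hx => h.deg2 _ (mem_of_mem_erase (mem_of_mem_erase hx)))
      rw [card_erase_of_mem hcmem, card_erase_of_mem hu] at e3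
      have e4 : E2 G A = ∑ x ∈ A, dg G A x := rfl
      have e5 : 2 ≤ A.card := by
        have : ({u, c v} : Finset V) ⊆ A := by
          intro x hx
          simp only [mem_insert, mem_singleton] at hx
          rcases hx with rfl | rfl
          · exact hu
          · exact hcv.1
        calc 2 = ({u, c v} : Finset V).card := (card_pair hcv.2.2.1.symm).symm
          _ ≤ _ := card_le_card this
      omega
    have hcard := h.card
    omega
  obtain ⟨c5, hc5, hc5Z, -⟩ := hR (f a)
  obtain ⟨i, hi1, hi2⟩ := cover_pred (P := L) (Q := fun z => H.Adj z (f a)) hc5 hLind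
    (fun p q hpq hp hq => h.tf _ _ _ hp.symm hpq hq.symm)
  exact hi1 ⟨hZF (hc5Z i), hi2⟩


lemma C6.charge (h : C6 G A H) {x : V} (hx : x ∈ A) (hx2 : dg G A x ≠ 2) :
    6 + t2 G A x ≤ 2 * dg G A x := by
  have hd := h.deg2 _ hx
  have hle : t2 G A x ≤ dg G A x := card_le_card (t2_sub x)
  have hsub : ∀ n ≤ t2 G A x, ∃ T ⊆ A.filter (fun y => G.Adj x y),
      (∀ v ∈ T, dg G A v = 2) ∧ T.card = n := by
    intro n hn
    obtain ⟨T, hT, hTc⟩ := exists_subset_card_eq hn
    exact ⟨T, hT.trans (t2_sub x), fun v hv =>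
      (mem_filter.1 (mem_filter.1 (hT hv)).1).2, hTc⟩
  rcases (show dg G A x = 3 ∨ dg G A x = 4 ∨ dg G A x = 5 ∨ 6 ≤ dg G A x by omega) with
    h3 | h4 | h5 | h6
  · have : t2 G A x = 0 := by
      by_contra hne
      obtain ⟨T, hT, hT2, hTc⟩ := hsub 1 (by omega)
      obtain ⟨v, hv⟩ := card_eq_one.1 hTc
      have hvT : v ∈ T := by rw [hv]; simp
      have hv' := mem_filter.1 (hT hvT)
      exact h.config1 hx hv'.1 hv'.2 (hT2 v hvT) (by omega)
    omega
  · have : t2 G A x ≤ 1 := by
      by_contra hne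
      obtain ⟨T, hT, hT2, hTc⟩ := hsub 2 (by omega)
      exact h.config2 hx hT hT2 hTc h4
    omega
  · have : t2 G A x ≤ 3 := by
      by_contra hne
      obtain ⟨T, hT, hT2, hTc⟩ := hsub 4 (by omega)
      exact h.config4 hx hT hT2 hTc h5
    omega
  · omega

lemma C6.dense (h : C6 G A H) : 3 * A.card ≤ E2 G A := by
  set N2 := A.filter (fun v => dg G A v = 2) with hN2
  have hcount : ∑ x ∈ A \ N2, t2 G A x = 2 * N2.card := by
    have e1 : ∑ x ∈ A \ N2, t2 G A x = ∑ v ∈ N2, ((A \ N2).filter (fun x => G.Adj x v)).card := by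
      unfold t2
      exact sum_card_bipartiteAbove_eq_sum_card_bipartiteBelow (fun x y => G.Adj x y)
    rw [e1]
    have e2 : ∀ v ∈ N2, ((A \ N2).filter (fun x => G.Adj x v)).card = 2 := by
      intro v hv
      have hv' := mem_filter.1 hv
      rw [← hv'.2]
      unfold dg
      congr 1
      ext x
      simp only [mem_filter, mem_sdiff]
      constructor
      · rintro ⟨⟨hxA, _⟩, hxv⟩
        exact ⟨hxA, hxv.symm⟩
      · rintro ⟨hxA, hvx⟩
        refine ⟨⟨hxA, ?_⟩, hvx.symm⟩
        intro hxN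
        rw [hN2, mem_filter] at hxN
        exact h.config1 hxN.1 hv'.1 hvx.symm hv'.2 (by rw [hxN.2]; omega)
    rw [sum_congr rfl e2]
    simp [mul_comm]
  have h1 : 6 * (A \ N2).card + ∑ x ∈ A \ N2, t2 G A x ≤ 2 * ∑ x ∈ A \ N2, dg G A x := by
    rw [mul_sum]
    have : 6 * (A \ N2).card = ∑ x ∈ A \ N2, 6 := by simp [mul_comm]
    rw [this, ← sum_add_distrib]
    apply sum_le_sum
    intro x hx
    rw [mem_sdiff] at hx
    exact h.charge hx.1 (fun hd => hx.2 (mem_filter.2 ⟨hx.1, hd⟩))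
  have h2 : ∑ x ∈ N2, dg G A x = 2 * N2.card := by
    have : ∑ x ∈ N2, dg G A x = ∑ _x ∈ N2, 2 :=
      sum_congr rfl (fun x hx => (mem_filter.1 hx).2)
    rw [this, sum_const, smul_eq_mul, mul_comm]
  have h3 : ∑ x ∈ A \ N2, dg G A x + ∑ x ∈ N2, dg G A x = ∑ x ∈ A, dg G A x :=
    sum_sdiff (filter_subset _ _)
  have h4 : (A \ N2).card + N2.card = A.card := card_sdiff_add_card_eq_card (filter_subset _ _)
  unfold E2
  omega


end Pool.Agent.SD95
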