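import Mathlib
import Pool.Agent.SC.Stmts

/-!
# MP_c6effb_co: `R(3,G) ≤ max (k + m, 6 μ(G))`, basic definitions

`dg`, `E2`, `Emb`, `TF` are those of Lib_helper86/Sid, `Conn`, `Closed`, `MaxInd`, `dI` those of SC/Stmts.
-/

set_option autoImplicit false

namespace Pool.Agent.SD95

open Finset Classical Pool.Agent.Sid86 Pool.Agent.SC

variable {V W : Type}

/-- `n ≥ k + m` and `n ≥ 6 (e(U) - |U|)` for all `U ⊆ A` -/
def Bnd (G : SimpleGraph V) (A : Finset V) (n : ℕ) : Prop :=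
  2 * A.card + E2 G A ≤ 2 * n ∧ ∀ U ⊆ A, 3 * E2 G U ≤ 6 * U.card + n

/-- `R(3,G[A]) ≤ n` -/
def Arr (G : SimpleGraph V) (A : Finset V) (n : ℕ) : Prop :=
  ∀ (W : Type) [Fintype W] [Nonempty W] (H : SimpleGraph W), TF H →
    n ≤ Fintype.card W → ∃ f : V → W, Emb G H A f

/-- the situation of a minimal counterexample -/
structure Ctx6 (G : SimpleGraph V) (A : Finset V) [Fintype W] (H : SimpleGraph W) : Prop where
  tf : TF H
  dm : ∀ x y, x ≠ y → ¬ H.Adj x y → ∃ z, H.Adj x z ∧ H.Adj y z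
  bnd : Bnd G A (Fintype.card W)
  no : ¬ ∃ f : V → W, Emb G H A f
  ih : ∀ B ⊆ A, B ≠ A → ∀ n, Bnd G B n → Arr G B n

lemma Bnd.mono {G : SimpleGraph V} {A B : Finset V} {n n' : ℕ} (h : Bnd G A n) (hB : B ⊆ A)
    (hn : n ≤ n') : Bnd G B n' := by
  have h1 : E2 G B ≤ E2 G A := by
    unfold E2
    calc ∑ x ∈ B, dg G B x ≤ ∑ x ∈ B, dg G A x := sum_le_sum (fun x _ => dg_mono G hB x)
      _ ≤ ∑ x ∈ A, dg G A x := sum_le_sum_of_subset hB
  have h2 : B.card ≤ A.card := card_le_card hB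
  refine ⟨by have := h.1; omega, fun U hU => ?_⟩
  have := h.2 U (hU.trans hB)
  omega

lemma Bnd.card {G : SimpleGraph V} {A : Finset V} {n : ℕ} (h : Bnd G A n) : A.card ≤ n := by
  have := h.1
  omega

/-- an embedding that avoids a set of positions -/
lemma arr_avoid {G : SimpleGraph V} {B : Finset V} {n : ℕ} (hA : Arr G B n) (hB : B.card ≤ n)
    [Fintype W] [Nonempty W] (H : SimpleGraph W) (hH : TF H) (Z : Finset W)
    (h : n + Z.card ≤ Fintype.card W) :
    ∃ f : V → W, Emb G H B f ∧ ∀ v ∈ B, f v ∉ Z := by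
  by_cases hne : Nonempty {w : W // w ∉ Z}
  · have hc : Fintype.card {w : W // w ∉ Z} = Fintype.card W - Z.card := by
      rw [Fintype.card_subtype_compl]
      simp
    obtain ⟨f, hf1, hf2⟩ := hA {w : W // w ∉ Z} (H.comap (fun w => w.1))
      (fun a b c h1 h2 h3 => hH a.1 b.1 c.1 h1 h2 h3) (by rw [hc]; omega)
    refine ⟨fun v => (f v).1, ⟨?_, ?_⟩, fun v _ => (f v).2⟩
    · intro x hx y hy hxy
      exact hf1 hx hy (Subtype.ext hxy)
    · intro u hu v hv huv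
      exact hf2 u hu v hv huv
  · have hZ : Z = univ := by
      ext w
      simp only [mem_univ, iff_true]
      by_contra hw
      exact hne ⟨⟨w, hw⟩⟩
    rw [hZ, card_univ] at h
    have hA0 : B = ∅ := by
      apply card_eq_zero.1
      omega
    subst hA0
    obtain ⟨w⟩ := ‹Nonempty W›
    exact ⟨fun _ => w, ⟨by simp [Set.InjOn], by simp⟩, by simp⟩

lemma Ctx6.avoid {G : SimpleGraph V} {A : Finset V} [Fintype W] [Nonempty W]
    {H : SimpleGraph W} (h : Ctx6 G A H) {B : Finset V} (hB : B ⊆ A) (hne : B ≠ A) {n : ℕ}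
    (hb : Bnd G B n) (Z : Finset W) (hZ : n + Z.card ≤ Fintype.card W) :
    ∃ f : V → W, Emb G H B f ∧ ∀ v ∈ B, f v ∉ Z :=
  arr_avoid (h.ih B hB hne n hb) hb.card H h.tf Z hZ

end Pool.Agent.SD95
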