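import Mathlib
import Pool.Agent.SD95.Base
import Pool.Agent.SC.BDC
import Pool.Agent.SC.MAIN

/-!
# MP_c6effb_co: growing a set inside a connected graph, removing a set
-/

set_option autoImplicit false

namespace Pool.Agent.SD95

open Finset Classical Pool.Agent.Sid86 Pool.Agent.SC

variable {V W : Type} {G : SimpleGraph V}

lemma E2_split {A C : Finset V} (hC : C ⊆ A) :
    E2 G A = E2 G C + E2 G (A \ C) + 2 * ∑ x ∈ C, dg G (A \ C) x := by
  have h1 : ∑ x ∈ A \ C, dg G C x = ∑ x ∈ C, dg G (A \ C) x := BDC.sum_comm' G (A \ C) C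
  have h2 : E2 G A = ∑ x ∈ A \ C, dg G A x + ∑ x ∈ C, dg G A x := (sum_sdiff hC).symm
  have h3 : ∀ x, dg G A x = dg G C x + dg G (A \ C) x := BDC.dg_split G hC
  rw [h2, sum_congr rfl (fun x _ => h3 x), sum_congr (s₁ := C) rfl (fun x _ => h3 x),
    sum_add_distrib, sum_add_distrib, h1]
  unfold E2
  ring

/-- the number of edges grows with every vertex added to a part of a connected graph -/
lemma grow {A : Finset V} (hA : Conn G A) : ∀ (n : ℕ) (U : Finset V), (A \ U).card = n →
    U ⊆ A → U.Nonempty → E2 G U + 2 * (A \ U).card ≤ E2 G A := by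
  intro n
  induction n with
  | zero =>
    intro U hU hUA _
    have h1 : A \ U = ∅ := card_eq_zero.1 hU
    have h2 : U = A := Subset.antisymm hUA (sdiff_eq_empty_iff_subset.1 h1)
    rw [hU, h2]
    omega
  | succ n ih =>
    intro U hU hUA hne
    have hne' : U ≠ A := by
      rintro rfl
      simp at hU
    obtain ⟨x, hx, y, hy, hxy⟩ := hA U hUA hne hne'
    rw [mem_sdiff] at hy
    have h1 : (A \ insert y U).card = n := by
      have e : A \ insert y U = (A \ U).erase y := by
        ext z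
        simp only [mem_sdiff, mem_insert, mem_erase]
        tauto
      rw [e, card_erase_of_mem (mem_sdiff.2 hy), hU]
      rfl
    have h2 := ih (insert y U) h1 (insert_subset hy.1 hUA) (insert_nonempty _ _)
    have h3 := E2_erase G (mem_insert_self y U)
    rw [erase_insert hy.2] at h3
    have h4 : 1 ≤ dg G (insert y U) y :=
      card_pos.2 ⟨x, mem_filter.2 ⟨mem_insert_of_mem hx, hxy.symm⟩⟩
    omega

lemma grow' {A U : Finset V} (hA : Conn G A) (hU : U ⊆ A) (hne : U.Nonempty) :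
    E2 G U + 2 * (A \ U).card ≤ E2 G A := grow hA _ U rfl hU hne

/-- the loss of a removed set `S`; `o` is the number of edges between `S` and `A \ S` -/
lemma peel {A S U : Finset V} (hA : Conn G A) (h2 : ∀ v ∈ A, 2 ≤ dg G A v) (hS : S ⊆ A)
    (hSne : S.Nonempty) (hU : U ⊆ A \ S) (hUne : U.Nonempty) :
    E2 G U + 2 * ((A \ S) \ U).card + 1 ≤ E2 G (A \ S) + ∑ x ∈ A \ S, dg G S x := by
  -- a maximal set grown from `U` inside `A \ S`
  obtain ⟨U', hU', hmax⟩ := exists_max_image
    ((A \ S).powerset.filter (fun U' => U ⊆ U' ∧ E2 G U + 2 * (U' \ U).card ≤ E2 G U'))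
    card ⟨U, mem_filter.2 ⟨mem_powerset.2 hU, Subset.refl _, by simp⟩⟩
  rw [mem_filter, mem_powerset] at hU'
  obtain ⟨hU'B, hUU', hE⟩ := hU'
  set B := A \ S with hB
  set D := B \ U' with hD
  have hno : ∀ x ∈ U', ∀ y ∈ D, ¬ G.Adj x y := by
    intro x hx y hy hxy
    rw [hD, mem_sdiff] at hy
    have h3 := E2_erase G (mem_insert_self y U')
    rw [erase_insert hy.2] at h3
    have h4 : 1 ≤ dg G (insert y U') y :=
      card_pos.2 ⟨x, mem_filter.2 ⟨mem_insert_of_mem hx, hxy.symm⟩⟩
    have h5 : ((insert y U') \ U).card = (U' \ U).card + 1 := by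
      rw [insert_sdiff_of_notMem _ (fun h => hy.2 (hUU' h)), card_insert_of_notMem
        (fun h => hy.2 (mem_sdiff.1 h).1)]
    have h6 := hmax (insert y U') (mem_filter.2 ⟨mem_powerset.2 (insert_subset hy.1 hU'B),
      hUU'.trans (subset_insert _ _), by omega⟩)
    rw [card_insert_of_notMem hy.2] at h6
    omega
  have hz : ∑ x ∈ U', dg G D x = 0 := by
    refine sum_eq_zero (fun x hx => ?_)
    rw [dg, card_eq_zero, filter_eq_empty_iff]
    exact fun {y} hy => hno x hx y hy
  have hsp := E2_split (G := G) hU'B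
  rw [← hD, hz] at hsp
  -- degrees in `D`
  have hBA : B ⊆ A := sdiff_subset
  have hdeg : ∀ x ∈ D, 2 ≤ dg G D x + dg G S x := by
    intro x hx
    have hx' := mem_sdiff.1 hx
    have e1 := BDC.dg_split G hBA x
    have e2 := BDC.dg_split G hU'B x
    rw [← hD] at e2
    have e3 : A \ B = S := Finset.sdiff_sdiff_eq_self hS
    rw [e3] at e1
    have e4 : dg G U' x = 0 := by
      rw [dg, card_eq_zero, filter_eq_empty_iff]
      exact fun {y} hy hxy => hno y hy x hx hxy.symm
    have := h2 x (hBA hx'.1)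
    omega
  have hD2 : 2 * D.card ≤ E2 G D + ∑ x ∈ D, dg G S x := by
    unfold E2
    rw [← sum_add_distrib]
    calc 2 * D.card = ∑ x ∈ D, 2 := by simp [mul_comm]
      _ ≤ _ := sum_le_sum hdeg
  -- an edge between `U'` and `S`
  have hU'ne : U'.Nonempty := hUne.mono hUU'
  have hU'A : U' ≠ A := by
    rintro rfl
    obtain ⟨s, hs⟩ := hSne
    exact (mem_sdiff.1 (hU'B (hS hs))).2 hs
  obtain ⟨x, hx, y, hy, hxy⟩ := hA U' (hU'B.trans hBA) hU'ne hU'A
  rw [mem_sdiff] at hy
  have hyS : y ∈ S := by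
    by_contra hn
    exact hno x hx y (mem_sdiff.2 ⟨mem_sdiff.2 ⟨hy.1, hn⟩, hy.2⟩) hxy
  have h1 : 1 ≤ ∑ x ∈ U', dg G S x := by
    have : 1 ≤ dg G S x := card_pos.2 ⟨y, mem_filter.2 ⟨hyS, hxy⟩⟩
    exact this.trans (single_le_sum (f := fun x => dg G S x) (fun _ _ => Nat.zero_le _) hx)
  have h3 : ∑ x ∈ D, dg G S x + ∑ x ∈ U', dg G S x = ∑ x ∈ B, dg G S x := sum_sdiff hU'B
  have h4 : (B \ U).card = (U' \ U).card + D.card := by
    have e1 := card_sdiff_add_card_eq_card hU
    have e2 := card_sdiff_add_card_eq_card hUU'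
    have e3 := card_sdiff_add_card_eq_card hU'B
    rw [← hD] at e3
    omega
  omega

end Pool.Agent.SD95
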