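import Mathlib
import Pool.Agent.SD95.Grow

/-!
# MP_c6effb_co: a minimal counterexample is connected and has minimum degree 2
-/

set_option autoImplicit false

namespace Pool.Agent.SD95

open Finset Classical Pool.Agent.Sid86 Pool.Agent.SC

variable {V W : Type} {G : SimpleGraph V} {A : Finset V} [Fintype W] [Nonempty W]
  {H : SimpleGraph W}

/-- `C ⊆ A` without edges to `A \ C` -/
def Cl (G : SimpleGraph V) (A C : Finset V) : Prop :=
  C ⊆ A ∧ ∀ x ∈ C, ∀ y ∈ A \ C, ¬ G.Adj x y

omit [Fintype W] [Nonempty W] in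
lemma Cl.e2 {C : Finset V} (h : Cl G A C) : E2 G A = E2 G C + E2 G (A \ C) := by
  have hz : ∑ x ∈ C, dg G (A \ C) x = 0 := by
    refine sum_eq_zero (fun x hx => ?_)
    rw [dg, card_eq_zero, filter_eq_empty_iff]
    exact fun {y} hy => h.2 x hx y hy
  have := E2_split (G := G) h.1
  rw [hz] at this
  exact this

lemma Cl.compl {C : Finset V} (h : Cl G A C) : Cl G A (A \ C) := by
  refine ⟨sdiff_subset, fun x hx y hy hxy => ?_⟩
  rw [Finset.sdiff_sdiff_eq_self h.1] at hy
  exact h.2 y hy x hx hxy.symm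

/-- embedding the two parts one after the other -/
lemma Ctx6.split (h : Ctx6 G A H) {C : Finset V} (hC : Cl G A C) (hne : C.Nonempty) (hA : C ≠ A)
    (hn : (A \ C).card ≤ Fintype.card W)
    (hb : ∀ U ⊆ C, 3 * E2 G U ≤ 6 * U.card + (Fintype.card W - (A \ C).card)) : False := by
  have hc : (A \ C).card + C.card = A.card := card_sdiff_add_card_eq_card hC.1
  have hAC : A \ C ≠ A := by
    intro he
    obtain ⟨x, hx⟩ := hne
    have : x ∈ A \ C := by rw [he]; exact hC.1 hx
    exact (mem_sdiff.1 this).2 hx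
  have h1 := hC.e2
  have h2 := h.bnd.1
  obtain ⟨f, ⟨hf1, hf2⟩, -⟩ := h.avoid (B := A \ C) sdiff_subset hAC
    (h.bnd.mono sdiff_subset le_rfl) ∅ (by simp)
  have hZ : ((A \ C).image f).card ≤ (A \ C).card := card_image_le
  have hbC : Bnd G C (Fintype.card W - (A \ C).card) := ⟨by omega, hb⟩
  obtain ⟨g, ⟨hg1, hg2⟩, hgZ⟩ := h.avoid (B := C) hC.1 hA hbC ((A \ C).image f) (by omega)
  have hfg : ∀ x ∈ C, ∀ y ∈ A \ C, g x ≠ f y := by
    intro x hx y hy hxy
    exact hgZ x hx (hxy ▸ mem_image_of_mem f hy)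
  apply h.no
  refine ⟨fun v => if v ∈ C then g v else f v, ?_, ?_⟩
  · intro x hx y hy hxy
    have hx' : x ∈ A := hx
    have hy' : y ∈ A := hy
    simp only at hxy
    by_cases hxX : x ∈ C <;> by_cases hyX : y ∈ C
    · rw [if_pos hxX, if_pos hyX] at hxy
      exact hg1 hxX hyX hxy
    · rw [if_pos hxX, if_neg hyX] at hxy
      exact absurd hxy (hfg x hxX y (mem_sdiff.2 ⟨hy', hyX⟩))
    · rw [if_neg hxX, if_pos hyX] at hxy
      exact absurd hxy.symm (hfg y hyX x (mem_sdiff.2 ⟨hx', hxX⟩))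
    · rw [if_neg hxX, if_neg hyX] at hxy
      exact hf1 (mem_coe.2 (mem_sdiff.2 ⟨hx', hxX⟩)) (mem_coe.2 (mem_sdiff.2 ⟨hy', hyX⟩)) hxy
  · intro x hx y hy hxy
    simp only
    by_cases hxX : x ∈ C <;> by_cases hyX : y ∈ C
    · rw [if_pos hxX, if_pos hyX]
      exact hg2 x hxX y hyX hxy
    · exact absurd hxy (hC.2 x hxX y (mem_sdiff.2 ⟨hy, hyX⟩))
    · exact absurd hxy.symm (hC.2 y hyX x (mem_sdiff.2 ⟨hx, hxX⟩))
    · rw [if_neg hxX, if_neg hyX]
      exact hf2 x (mem_sdiff.2 ⟨hx, hxX⟩) y (mem_sdiff.2 ⟨hy, hyX⟩) hxy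

lemma Ctx6.hasU (h : Ctx6 G A H) {C : Finset V} (hC : Cl G A C) (hne : C.Nonempty) (hA : C ≠ A) :
    ∃ U ⊆ C, 2 * U.card < E2 G U := by
  by_contra hcon
  push Not at hcon
  have h2 := h.bnd.1
  have hle : (A \ C).card ≤ A.card := card_le_card sdiff_subset
  refine h.split hC hne hA (by omega) (fun U hU => ?_)
  have := hcon U hU
  omega

/-- a closed nonempty set contains a connected closed nonempty set -/
lemma exists_comp {C : Finset V} (hC : Cl G A C) (hne : C.Nonempty) :
    ∃ D ⊆ C, D.Nonempty ∧ Cl G A D ∧ Conn G D := by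
  obtain ⟨D, hD, hmin⟩ := exists_min_image
    (C.powerset.filter (fun D => D.Nonempty ∧ Cl G A D)) card
    ⟨C, mem_filter.2 ⟨mem_powerset.2 (Subset.refl _), hne, hC⟩⟩
  rw [mem_filter, mem_powerset] at hD
  obtain ⟨hDC, hDne, hDcl⟩ := hD
  refine ⟨D, hDC, hDne, hDcl, ?_⟩
  intro X hX hXne hXD
  by_contra hcon
  push Not at hcon
  have hXcl : Cl G A X := by
    refine ⟨hX.trans hDcl.1, fun x hx y hy hxy => ?_⟩
    rw [mem_sdiff] at hy
    by_cases hyD : y ∈ D
    · exact hcon x hx y (mem_sdiff.2 ⟨hyD, hy.2⟩) hxy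
    · exact hDcl.2 x (hX hx) y (mem_sdiff.2 ⟨hy.1, hyD⟩) hxy
  have h1 := hmin X (mem_filter.2 ⟨mem_powerset.2 (hX.trans hDC), hXne, hXcl⟩)
  have h2 : X.card < D.card := card_lt_card ⟨hX, fun h => hXD (Subset.antisymm hX h)⟩
  omega

/-- every proper closed set has at least as many edges as vertices -/
lemma Ctx6.closed_E2 (h : Ctx6 G A H) : ∀ (n : ℕ) (C : Finset V), C.card = n → Cl G A C →
    C ≠ A → 2 * C.card ≤ E2 G C := by
  intro n
  induction n using Nat.strong_induction_on with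
  | _ n ih =>
    intro C hCn hC hCA
    by_cases hne : C.Nonempty
    · obtain ⟨D, hDC, hDne, hDcl, hDconn⟩ := exists_comp hC hne
      have hDA : D ≠ A := by
        rintro rfl
        exact hCA (Subset.antisymm hC.1 hDC)
      obtain ⟨U, hU, hUE⟩ := h.hasU hDcl hDne hDA
      have hUne : U.Nonempty := by
        rw [nonempty_iff_ne_empty]
        rintro rfl
        simp [E2] at hUE
      have h1 := grow' hDconn hU hUne
      have h2 := card_sdiff_add_card_eq_card hU
      -- the rest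
      have hR : Cl G A (C \ D) := by
        refine ⟨sdiff_subset.trans hC.1, fun x hx y hy hxy => ?_⟩
        rw [mem_sdiff] at hx hy
        by_cases hyC : y ∈ C
        · have hyD : y ∈ D := by
            by_contra hn
            exact hy.2 (mem_sdiff.2 ⟨hyC, hn⟩)
          exact hDcl.2 y hyD x (mem_sdiff.2 ⟨hC.1 hx.1, hx.2⟩) hxy.symm
        · exact hC.2 x hx.1 y (mem_sdiff.2 ⟨hy.1, hyC⟩) hxy
      have h3 := card_sdiff_add_card_eq_card hDC
      have hDpos := card_pos.2 hDne
      have h4 := ih (C \ D).card (by omega) (C \ D) rfl hR (by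
        intro he
        obtain ⟨x, hx⟩ := hDne
        have : x ∈ C \ D := he ▸ hDcl.1 hx
        exact (mem_sdiff.1 this).2 hx)
      have hDclC : Cl G C D := ⟨hDC, fun x hx y hy =>
        hDcl.2 x hx y (mem_sdiff.2 ⟨hC.1 (mem_sdiff.1 hy).1, (mem_sdiff.1 hy).2⟩)⟩
      have h5 := hDclC.e2
      omega
    · rw [not_nonempty_iff_eq_empty] at hne
      rw [hne]
      simp

theorem Ctx6.conn (h : Ctx6 G A H) : Conn G A := by
  intro X hXA hXne hXA'
  by_contra hcon
  push Not at hcon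
  -- the better of the two parts
  have key : ∀ C : Finset V, Cl G A C → C.Nonempty → C ≠ A →
      (∃ U ⊆ C, ∃ U' ⊆ A \ C, (∀ Y ⊆ C, E2 G Y + 2 * U.card ≤ E2 G U + 2 * Y.card) ∧
        E2 G U + 2 * U'.card ≤ E2 G U' + 2 * U.card) → False := by
    rintro C hC hne hA ⟨U, hU, U', hU', hmaxU, hUU'⟩
    have hc : (A \ C).card + C.card = A.card := card_sdiff_add_card_eq_card hC.1
    have h1 := h.bnd.1
    have h2 := hC.e2
    have h3 := h.closed_E2 _ (A \ C) rfl hC.compl (by
      intro he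
      obtain ⟨x, hx⟩ := hne
      have : x ∈ A \ C := by rw [he]; exact hC.1 hx
      exact (mem_sdiff.1 this).2 hx)
    have hdisj : Disjoint U U' := by
      rw [disjoint_left]
      intro x hx hx'
      exact (mem_sdiff.1 (hU' hx')).2 (hU hx)
    have hcl : Cl G (U ∪ U') U := by
      refine ⟨subset_union_left, fun x hx y hy => ?_⟩
      rw [mem_sdiff, mem_union] at hy
      have hyU' : y ∈ U' := hy.1.resolve_left hy.2
      exact hC.2 x (hU hx) y (hU' hyU')
    have h4 := hcl.e2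
    have h5 : (U ∪ U') \ U = U' := by
      rw [union_sdiff_cancel_left hdisj]
    rw [h5] at h4
    have h6 := h.bnd.2 (U ∪ U') (union_subset (hU.trans hC.1) (hU'.trans sdiff_subset))
    rw [card_union_of_disjoint hdisj] at h6
    have h7 := hmaxU ∅ (empty_subset _)
    have h8 : E2 G (∅ : Finset V) = 0 := by simp [E2]
    rw [h8, card_empty] at h7
    refine h.split hC hne hA (by omega) (fun Y hY => ?_)
    have h9 := hmaxU Y hY
    omega
  have ex : ∀ C : Finset V, ∃ U ⊆ C, ∀ Y ⊆ C, E2 G Y + 2 * U.card ≤ E2 G U + 2 * Y.card := by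
    intro C
    obtain ⟨U, hU, hmax⟩ := exists_max_image C.powerset
      (fun U => (E2 G U : ℤ) - 2 * U.card) ⟨∅, empty_mem_powerset _⟩
    refine ⟨U, mem_powerset.1 hU, fun Y hY => ?_⟩
    have := hmax Y (mem_powerset.2 hY)
    omega
  have hC : Cl G A X := ⟨hXA, hcon⟩
  have hXc : (A \ X).Nonempty := by
    rw [sdiff_nonempty]
    exact fun hAX => hXA' (Subset.antisymm hXA hAX)
  have hXc' : A \ X ≠ A := by
    intro he
    obtain ⟨x, hx⟩ := hXne
    have : x ∈ A \ X := by rw [he]; exact hXA hx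
    exact (mem_sdiff.1 this).2 hx
  obtain ⟨U, hU, hmU⟩ := ex X
  obtain ⟨U', hU', hmU'⟩ := ex (A \ X)
  rcases Nat.le_total (E2 G U + 2 * U'.card) (E2 G U' + 2 * U.card) with hle | hle
  · exact key X hC hXne hXA' ⟨U, hU, U', hU', hmU, hle⟩
  · refine key (A \ X) hC.compl hXc hXc' ⟨U', hU', U, ?_, hmU', hle⟩
    rw [Finset.sdiff_sdiff_eq_self hXA]
    exact hU

lemma Ctx6.nbhd (h : Ctx6 G A H) (x : W) : (univ.filter (fun y => H.Adj x y)).card < A.card := by
  by_contra hc
  refine h.no (emb_of_indep (I := univ.filter (fun y => H.Adj x y)) ?_ (not_lt.1 hc))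
  intro a ha b hb hab
  simp only [mem_filter, mem_univ, true_and] at ha hb
  exact h.tf _ _ _ ha hab hb

theorem Ctx6.deg2 (h : Ctx6 G A H) {v : V} (hv : v ∈ A) : 2 ≤ dg G A v := by
  by_contra hc
  have hconn := h.conn
  have hE := grow' hconn (U := {v}) (by simpa using hv) (by simp)
  have hE0 : E2 G ({v} : Finset V) = 0 := by simp [E2, dg]
  have hcd : (A \ {v}).card + 1 = A.card := by
    have := card_sdiff_add_card_eq_card (s := {v}) (t := A) (by simpa using hv)
    rwa [card_singleton] at this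
  have hb := h.bnd.1
  have hne : A \ {v} ≠ A := by
    intro he
    rw [he] at hcd
    omega
  obtain ⟨f, hf, -⟩ := h.avoid (B := A \ {v}) sdiff_subset hne
    (h.bnd.mono sdiff_subset le_rfl) ∅ (by simp)
  -- the forbidden positions
  set N : Finset V := A.filter (fun y => G.Adj v y) with hN
  have hNc : N.card ≤ 1 := by
    have : N.card = dg G A v := rfl
    omega
  set F : Finset W := (A \ {v}).image f ∪ N.biUnion (fun u => univ.filter (fun y => H.Adj (f u) y))
    with hF
  have hk : 1 ≤ A.card := card_pos.2 ⟨v, hv⟩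
  have h1 : (N.biUnion (fun u => univ.filter (fun y => H.Adj (f u) y))).card ≤ A.card - 1 := by
    refine (card_biUnion_le_card_mul _ _ (A.card - 1) (fun u _ => ?_)).trans ?_
    · have := h.nbhd (f u)
      omega
    · calc N.card * (A.card - 1) ≤ 1 * (A.card - 1) := Nat.mul_le_mul_right _ hNc
        _ = A.card - 1 := one_mul _
  have h2 : ((A \ {v}).image f).card ≤ (A \ {v}).card := card_image_le
  have h3 : F.card ≤ (A \ {v}).card + (A.card - 1) := by
    rw [hF]
    have := card_union_le ((A \ {v}).image f)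
      (N.biUnion (fun u => univ.filter (fun y => H.Adj (f u) y)))
    omega
  have h4 : F.card < Fintype.card W := by omega
  obtain ⟨y, -, hy⟩ := exists_mem_notMem_of_card_lt_card (s := F) (t := univ) (by rwa [card_univ])
  rw [hF, mem_union, not_or] at hy
  have hSe : A \ insert v ∅ = A \ {v} := rfl
  apply h.no
  refine emb_config (T := ∅) (u := v) (c := id) (by simp) (by simp) (by simp) (f := f)
    (by rw [hSe]; exact hf) (y := y) ?_ ?_ (g := fun _ => y) (by simp) (by simp) (by simp)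
  · intro x hx hfx
    exact hy.1 (mem_image.2 ⟨x, hx, hfx⟩)
  · intro x hx hvx hyx
    refine hy.2 (mem_biUnion.2 ⟨x, mem_filter.2 ⟨(mem_sdiff.1 hx).1, hvx⟩, ?_⟩)
    exact mem_filter.2 ⟨mem_univ _, hyx.symm⟩

end Pool.Agent.SD95
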