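import Mathlib
import Pool.Agent.SD95.Comp
import Pool.Agent.SD95.Cfg

/-!
# MP_c6effb_co: the reducible configurations in a minimal counterexample; minimum degree 3
-/

set_option autoImplicit false

namespace Pool.Agent.SD95

open Finset Classical Pool.Agent.Sid86 Pool.Agent.SC

variable {V W : Type} {G : SimpleGraph V} {A : Finset V} [Fintype W] [Nonempty W]
  {H : SimpleGraph W}

theorem Ctx6.rem' (h : Ctx6 G A H) {u : V} (hu : u ∈ A) {T : Finset V}
    (hT : T ⊆ A.filter (fun x => G.Adj u x)) (h2 : ∀ v ∈ T, dg G A v = 2)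
    (hTT : ∀ v ∈ T, ∀ v' ∈ T, ¬ G.Adj v v') (Z : Finset W)
    (hZ1 : 2 * A.card + E2 G A + 2 * Z.card ≤
      2 * Fintype.card W + 2 * (1 + 2 * T.card + dg G A u))
    (hZ2 : Z.card ≤ 6 * (dg G A u / 2)) :
    ∃ f : V → W, Emb G H (A \ insert u T) f ∧ ∀ x ∈ A \ insert u T, f x ∉ Z := by
  have huT : u ∉ T := by
    intro hcon
    have := (mem_filter.1 (hT hcon)).2
    exact G.loopless.irrefl _ this
  have hTA : T ⊆ A := fun x hx => (mem_filter.1 (hT hx)).1
  have hSA : insert u T ⊆ A := insert_subset hu hTA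
  set S := insert u T with hS
  set B := A \ S with hB
  have hSc : S.card = T.card + 1 := by rw [hS, card_insert_of_notMem huT]
  have hcard : B.card + S.card = A.card := card_sdiff_add_card_eq_card hSA
  have hdu : dg G S u = T.card := by
    unfold dg
    congr 1
    ext x
    rw [mem_filter, hS, mem_insert]
    constructor
    · rintro ⟨rfl | hx, hux⟩
      · exact absurd hux (G.loopless.irrefl _)
      · exact hx
    · intro hx
      exact ⟨Or.inr hx, (mem_filter.1 (hT hx)).2⟩
  have hdv : ∀ v ∈ T, dg G S v = 1 := by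
    intro v hv
    unfold dg
    rw [card_eq_one]
    refine ⟨u, ?_⟩
    ext x
    rw [mem_filter, hS, mem_insert, mem_singleton]
    constructor
    · rintro ⟨hx | hx, hvx⟩
      · exact hx
      · exact absurd hvx (hTT v hv x hx)
    · rintro rfl
      exact ⟨Or.inl rfl, (mem_filter.1 (hT hv)).2.symm⟩
  have hES : E2 G S = 2 * T.card := by
    unfold E2
    rw [hS, sum_insert huT, ← hS, hdu, sum_congr rfl hdv]
    simp
    ring
  have ho : ∑ x ∈ S, dg G B x = dg G A u := by
    have hs : ∀ x, dg G A x = dg G S x + dg G B x := BDC.dg_split G hSA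
    rw [hS, sum_insert huT]
    have h1 : ∀ v ∈ T, dg G B v = 1 := by
      intro v hv
      have := hs v
      rw [h2 v hv, hdv v hv] at this
      omega
    rw [sum_congr rfl h1]
    have := hs u
    rw [hdu] at this
    simp
    omega
  have ho' : ∑ x ∈ B, dg G S x = dg G A u := by
    rw [← ho]
    exact BDC.sum_comm' G B S
  have hE := E2_split (G := G) hSA
  rw [← hB, ho, hES] at hE
  have hSne : S.Nonempty := insert_nonempty _ _
  have hBA : B ≠ A := by
    intro he
    rw [he] at hcard
    have := card_pos.2 hSne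
    omega
  have hconn := h.conn
  have hbW := h.bnd.2 A (Subset.refl _)
  have hbnd : Bnd G B (Fintype.card W - Z.card) := by
    refine ⟨by omega, fun U hU => ?_⟩
    rcases U.eq_empty_or_nonempty with rfl | hUne
    · simp [E2]
    · have h3 := peel hconn (fun v hv => h.deg2 hv) hSA hSne hU hUne
      rw [← hB, ho'] at h3
      have h4 := card_sdiff_add_card_eq_card hU
      obtain ⟨a, ha⟩ := MAIN.even_E2 G U
      obtain ⟨c, hc⟩ := MAIN.even_E2 G A
      omega
  exact h.avoid sdiff_subset hBA hbnd Z (by omega)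

theorem Ctx6.toC6 (h : Ctx6 G A H) : C6 G A H where
  tf := h.tf
  dm := h.dm
  card := h.bnd.1
  no := h.no
  deg2 := fun v hv => h.deg2 hv
  rem := fun u hu T hT h2 hTT Z hZ1 hZ2 => h.rem' hu hT h2 hTT Z (by
    have := h.bnd.1
    omega) hZ2

theorem Ctx6.dense (h : Ctx6 G A H) : 3 * A.card ≤ E2 G A := h.toC6.dense

theorem Ctx6.nonempty (h : Ctx6 G A H) : A.Nonempty := by
  rw [nonempty_iff_ne_empty]
  rintro rfl
  obtain ⟨w⟩ := ‹Nonempty W›
  exact h.no ⟨fun _ => w, by simp [Set.InjOn], by simp⟩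

/-- placing one vertex -/
lemma Ctx6.place (h : Ctx6 G A H) {v : V} {f : V → W} (hf : Emb G H (A \ {v}) f) {y : W}
    (hy : ∀ x ∈ A \ {v}, f x ≠ y) (hy2 : ∀ x ∈ A \ {v}, G.Adj v x → ¬ H.Adj y (f x)) : False := by
  have hSe : A \ insert v ∅ = A \ {v} := rfl
  apply h.no
  exact emb_config (T := ∅) (u := v) (c := id) (by simp) (by simp) (by simp) (f := f)
    (by rw [hSe]; exact hf) (y := y) (by rw [hSe]; exact hy) (by rw [hSe]; exact hy2)
    (g := fun _ => y) (by simp) (by simp) (by simp)

theorem Ctx6.deg3 (h : Ctx6 G A H) {v : V} (hv : v ∈ A) : 3 ≤ dg G A v := by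
  by_contra hc
  have hd2 : dg G A v = 2 := by
    have := h.deg2 hv
    omega
  have hE := h.dense
  have hbW := h.bnd.2 A (Subset.refl _)
  have hk : E2 G A ≤ A.card * (A.card - 1) := by
    unfold E2
    calc ∑ x ∈ A, dg G A x ≤ ∑ x ∈ A, (A.card - 1) := by
          refine sum_le_sum (fun x hx => ?_)
          have : A.filter (fun y => G.Adj x y) ⊆ A.erase x := by
            intro y hy
            rw [mem_filter] at hy
            exact mem_erase.2 ⟨hy.2.ne', hy.1⟩
          have h1 := card_le_card this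
          rwa [card_erase_of_mem hx] at h1
      _ = A.card * (A.card - 1) := by simp
  have hk4 : 4 ≤ A.card := by
    by_contra hlt
    have hpos := card_pos.2 h.nonempty
    have : A.card = 1 ∨ A.card = 2 ∨ A.card = 3 := by omega
    rcases this with h1 | h1 | h1 <;> rw [h1] at hE hk <;> omega
  obtain ⟨c5, hc5⟩ := h.toC6.five
  have hZc : (univ.image c5).card ≤ 5 := by
    refine card_image_le.trans ?_
    simp
  obtain ⟨f, hf, hfZ⟩ := h.rem' hv (T := ∅) (by simp) (by simp) (by simp) (univ.image c5)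
    (by rw [hd2, card_empty]; omega) (by rw [hd2]; omega)
  obtain ⟨a, b, hab, hs⟩ := card_eq_two.1 (show (A.filter (fun x => G.Adj v x)).card = 2 from hd2)
  obtain ⟨i, hi1, hi2⟩ := cover2 h.tf hc5 (f a) (f b)
  refine h.place (v := v) (f := f) (y := c5 i) hf ?_ ?_
  · intro x hx hfx
    exact hfZ x hx (by rw [hfx]; exact mem_image_of_mem _ (mem_univ _))
  · intro x hx hvx
    have hx' : x ∈ A.filter (fun x => G.Adj v x) := mem_filter.2 ⟨(mem_sdiff.1 hx).1, hvx⟩
    rw [hs, mem_insert, mem_singleton] at hx'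
    rcases hx' with rfl | rfl
    · exact fun hh => hi1 hh.symm
    · exact fun hh => hi2 hh.symm

/-- the independence number of `H` is at least 4 -/
theorem Ctx6.low (h : Ctx6 G A H) {I : Finset W} {s : ℕ} (hI : MaxInd H I s) : 4 ≤ s := by
  by_contra hs
  obtain ⟨v, hv⟩ := h.nonempty
  obtain ⟨x⟩ := ‹Nonempty W›
  have hN : (univ.filter (fun y => H.Adj x y)).card ≤ s := by
    apply hI.max
    intro a ha b hb hab
    simp only [mem_filter, mem_univ, true_and] at ha hb
    exact h.tf _ _ _ ha hab hb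
  have hZ : (insert x (univ.filter (fun y => H.Adj x y))).card ≤ 4 :=
    (card_insert_le _ _).trans (by omega)
  have hd := h.deg3 hv
  have hb := h.bnd.1
  obtain ⟨f, hf, hfZ⟩ := h.rem' hv (T := ∅) (by simp) (by simp) (by simp)
    (insert x (univ.filter (fun y => H.Adj x y))) (by rw [card_empty]; omega) (by omega)
  have hfx : ∀ y ∈ A \ {v}, f y ≠ x ∧ ¬ H.Adj x (f y) := by
    intro y hy
    have := hfZ y hy
    simp only [mem_insert, mem_filter, mem_univ, true_and, not_or] at this
    exact this
  exact h.place (v := v) (f := f) (y := x) hf (fun y hy => (hfx y hy).1)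
    (fun y hy _ => (hfx y hy).2)

end Pool.Agent.SD95
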