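import Mathlib
import Pool.Agent.SD95.Rem

/-!
# MP_c6effb_co: greedy placement if the independence number of `H` is small
-/

set_option autoImplicit false

namespace Pool.Agent.SD95

open Finset Classical Pool.Agent.Sid86 Pool.Agent.SC

variable {V W : Type} {G : SimpleGraph V} {A : Finset V} [Fintype W] [Nonempty W]
  {H : SimpleGraph W}

omit [Nonempty W] in
lemma nbhd_le (hH : TF H) {I : Finset W} {s : ℕ} (hI : MaxInd H I s) (x : W) :
    (univ.filter (fun y => H.Adj x y)).card ≤ s := by
  apply hI.max
  intro a ha b hb hab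
  simp only [mem_filter, mem_univ, true_and] at ha hb
  exact hH _ _ _ ha hab hb

omit [Nonempty W] in
/-- extending an embedding to one more vertex -/
lemma extend (hH : TF H) {I : Finset W} {s : ℕ} (hI : MaxInd H I s) {D : Finset V} {v : V}
    {f : V → W} (hf : Emb G H (D \ {v}) f) (hn : (D \ {v}).card + dg G D v * s < Fintype.card W) :
    ∃ f' : V → W, Emb G H D f' := by
  set F : Finset W := (D \ {v}).image f ∪
    (D.filter (fun y => G.Adj v y)).biUnion (fun u => univ.filter (fun y => H.Adj (f u) y)) with hF
  have h1 : ((D.filter (fun y => G.Adj v y)).biUnion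
      (fun u => univ.filter (fun y => H.Adj (f u) y))).card ≤ dg G D v * s :=
    card_biUnion_le_card_mul _ _ s (fun u _ => nbhd_le hH hI (f u))
  have h2 : ((D \ {v}).image f).card ≤ (D \ {v}).card := card_image_le
  have h3 : F.card < Fintype.card W := by
    rw [hF]
    have := card_union_le ((D \ {v}).image f)
      ((D.filter (fun y => G.Adj v y)).biUnion (fun u => univ.filter (fun y => H.Adj (f u) y)))
    omega
  obtain ⟨y, -, hy⟩ := exists_mem_notMem_of_card_lt_card (s := F) (t := univ) (by rwa [card_univ])
  rw [hF, mem_union, not_or] at hy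
  have hSe : D \ insert v ∅ = D \ {v} := rfl
  refine emb_config (T := ∅) (u := v) (c := id) (by simp) (by simp) (by simp) (f := f)
    (by rw [hSe]; exact hf) (y := y) ?_ ?_ (g := fun _ => y) (by simp) (by simp) (by simp)
  · intro x hx hfx
    exact hy.1 (mem_image.2 ⟨x, hx, hfx⟩)
  · intro x hx hvx hyx
    refine hy.2 (mem_biUnion.2 ⟨x, mem_filter.2 ⟨(mem_sdiff.1 hx).1, hvx⟩, ?_⟩)
    exact mem_filter.2 ⟨mem_univ _, hyx.symm⟩

theorem Ctx6.lt_card (h : Ctx6 G A H) {I : Finset W} {s : ℕ} (hI : MaxInd H I s) :
    s < A.card := by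
  by_contra hc
  exact h.no (emb_of_indep hI.ind (by rw [hI.card]; exact not_lt.1 hc))

theorem Ctx6.greedy (h : Ctx6 G A H) {I : Finset W} {s : ℕ} (hI : MaxInd H I s) :
    Fintype.card W < 3 * s + A.card := by
  by_contra hcon
  rw [not_lt] at hcon
  have hsk := h.lt_card hI
  have hbW := h.bnd.2 A (Subset.refl _)
  have key : ∀ (n : ℕ) (D : Finset V), D.card = s + n → D ⊆ A →
      (∀ a ∈ D, ∀ b ∈ A \ D, dg G A b ≤ dg G A a) → ∃ f : V → W, Emb G H D f := by
    intro n
    induction n with
    | zero =>
      intro D hD _ _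
      exact emb_of_indep hI.ind (by rw [hI.card, hD]; omega)
    | succ n ih =>
      intro D hD hDA hup
      have hDne : D.Nonempty := card_pos.1 (by omega)
      obtain ⟨v, hv, hmin⟩ := exists_min_image D (dg G A) hDne
      have hc : (D \ {v}).card = s + n := by
        have := card_sdiff_add_card_eq_card (s := {v}) (t := D) (by simpa using hv)
        rw [card_singleton] at this
        omega
      obtain ⟨f, hf⟩ := ih (D \ {v}) hc (sdiff_subset.trans hDA) (by
        intro a ha b hb
        rw [mem_sdiff, mem_singleton] at ha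
        rw [mem_sdiff, mem_sdiff, mem_singleton] at hb
        by_cases hbD : b ∈ D
        · have hbv : b = v := by
            by_contra hn
            exact hb.2 ⟨hbD, hn⟩
          rw [hbv]
          exact hmin a ha.1
        · exact hup a ha.1 b (mem_sdiff.2 ⟨hb.1, hbD⟩))
      refine extend h.tf hI hf ?_
      rw [hc]
      have h1 : dg G D v ≤ dg G A v := dg_mono G hDA v
      have hd3 := h.deg3 (hDA hv)
      obtain ⟨e, he⟩ : ∃ e, dg G A v = 3 + e := ⟨dg G A v - 3, by omega⟩
      have hDk : D.card ≤ A.card := card_le_card hDA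
      -- the excess
      have hE : D.card * (3 + e) + 3 * (A \ D).card ≤ E2 G A := by
        have e1 : ∑ x ∈ A \ D, dg G A x + ∑ x ∈ D, dg G A x = E2 G A := sum_sdiff hDA
        have e2 : D.card * (3 + e) ≤ ∑ x ∈ D, dg G A x := by
          rw [← smul_eq_mul, ← Finset.sum_const]
          refine sum_le_sum (fun x hx => ?_)
          rw [← he]
          exact hmin x hx
        have e3 : (A \ D).card * 3 ≤ ∑ x ∈ A \ D, dg G A x := by
          rw [← smul_eq_mul, ← Finset.sum_const]
          exact sum_le_sum (fun x hx => h.deg3 (sdiff_subset hx))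
        omega
      have hcA := card_sdiff_add_card_eq_card hDA
      rw [hD] at hE hcA hDk
      have h2 : dg G D v * s ≤ (3 + e) * s := Nat.mul_le_mul_right _ (h1.trans he.le)
      rcases Nat.eq_zero_or_pos e with h0 | hpos
      · rw [h0] at h2
        omega
      · have h3 : e * s ≤ e * (s + (n + 1)) := Nat.mul_le_mul_left _ (by omega)
        have h4 : 1 * (s + (n + 1)) ≤ e * (s + (n + 1)) := Nat.mul_le_mul_right _ hpos
        have h5 : (s + (n + 1)) * (3 + e) = 3 * (s + (n + 1)) + e * (s + (n + 1)) := by ring
        have h6 : (3 + e) * s = 3 * s + e * s := by ring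
        rw [h5] at hE
        rw [h6] at h2
        omega
  obtain ⟨f, hf⟩ := key (A.card - s) A (by omega) (Subset.refl _) (by simp)
  exact h.no ⟨f, hf⟩

end Pool.Agent.SD95
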