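import Mathlib
import Pool.Agent.SD95.Greedy
import Pool.Agent.SC.CLO
import Pool.Agent.SC.ISO

/-!
# MP_c6effb_co: a closed connected set outside a part of the maximum independent set
-/

set_option autoImplicit false

namespace Pool.Agent.SD95

open Finset Classical Pool.Agent.Sid86 Pool.Agent.SC

variable {V W : Type} {G : SimpleGraph V} {A : Finset V} [Fintype W] [Nonempty W]
  {H : SimpleGraph W}

omit [Fintype W] [Nonempty W] in
/-- existence of the closed connected set (`t_CLO` without the hypothesis that `G[A]` is cubic) -/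
theorem clo {t0 : ℕ} (hconn : Conn G A) (hne : A.Nonempty) (ht0 : 1 ≤ t0) (htA : t0 < A.card) :
    ∃ T ⊆ A, T.Nonempty ∧ Conn G T ∧ Closed G A T ∧ t0 ≤ T.card ∧
      4 * T.card ≤ E2 G T + 2 * t0 + 2 := by
  obtain ⟨v, hv⟩ := hne
  have hcl : Closed G A {v} := by
    intro x _
    refine (card_le_card (filter_subset _ _)).trans ?_
    rw [card_singleton]
  by_cases ht : t0 = 1
  · subst ht
    refine ⟨{v}, singleton_subset_iff.2 hv, singleton_nonempty v, CLO.conn_singleton v, hcl,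
      ?_, ?_⟩
    · rw [card_singleton]
    · rw [card_singleton]
      omega
  · have hex : (A.powerset.filter (fun T => T.Nonempty ∧ Conn G T ∧ Closed G A T ∧
        T.card + 1 ≤ t0 ∧ 2 * T.card ≤ E2 G T + 2)).Nonempty := by
      refine ⟨{v}, mem_filter.2 ⟨mem_powerset.2 (singleton_subset_iff.2 hv),
        singleton_nonempty v, CLO.conn_singleton v, hcl, ?_, ?_⟩⟩
      · rw [card_singleton]
        omega
      · rw [card_singleton]
        omega
    obtain ⟨T', hT', hmax⟩ := exists_max_image _ card hex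
    rw [mem_filter, mem_powerset] at hT'
    obtain ⟨hT'A, hT'n, hT'c, hT'cl, hT't, hT'e⟩ := hT'
    obtain ⟨x, hx, z, hz, hxz⟩ := hconn T' hT'A hT'n (fun h => by
      rw [h] at hT't
      omega)
    rw [mem_sdiff] at hz
    have h1 : 1 ≤ dg G T' z := card_pos.2 ⟨x, mem_filter.2 ⟨hx, hxz.symm⟩⟩
    have h2 := CLO.E2_insert (G := G) hz.2 h1
    obtain ⟨T, hT1, hT2, hT3, hT4, hT5⟩ := CLO.closure (G := G) A _ (insert z T') rfl
      (insert_subset hz.1 hT'A) (CLO.conn_insert hT'c hx hxz.symm)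
    have h3 : T'.card + 1 ≤ T.card := by
      rw [← card_insert_of_notMem hz.2]
      exact card_le_card hT1
    rw [card_insert_of_notMem hz.2] at hT5
    have hTn : T.Nonempty := ⟨z, hT1 (mem_insert_self _ _)⟩
    have h4 : t0 ≤ T.card := by
      by_contra hlt
      have h5 := hmax T (mem_filter.2 ⟨mem_powerset.2 hT2, hTn, hT3, hT4, by omega, by omega⟩)
      omega
    exact ⟨T, hT2, hTn, hT3, hT4, h4, by omega⟩

omit [Nonempty W] in
/-- few vertices outside `I` are adjacent to almost all of `I1 ⊆ I` -/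
lemma card_Z (hH : TF H) {I : Finset W} {s : ℕ} (hI : MaxInd H I s) (I1 : Finset W) (b : ℕ) :
    ((univ \ I).filter (fun y => I1.card < dI H I1 y + b)).card * (I1.card + 1 - b) ≤
      s * I1.card := by
  have h1 : ∑ y, dI H I1 y = ∑ z ∈ I1, (univ.filter (fun y => H.Adj y z)).card := by
    unfold dI
    simp only [Finset.card_filter]
    rw [Finset.sum_comm]
  have h2 : ∀ z ∈ I1, (univ.filter (fun y => H.Adj y z)).card ≤ s := by
    intro z _
    have h3 : univ.filter (fun y => H.Adj y z) = univ.filter (fun y => H.Adj z y) := by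
      ext y
      simp only [mem_filter, mem_univ, true_and]
      exact H.adj_comm y z
    rw [h3]
    exact nbhd_le hH hI z
  calc ((univ \ I).filter (fun y => I1.card < dI H I1 y + b)).card * (I1.card + 1 - b)
      = ∑ y ∈ (univ \ I).filter (fun y => I1.card < dI H I1 y + b), (I1.card + 1 - b) := by
        rw [sum_const, smul_eq_mul]
    _ ≤ ∑ y ∈ (univ \ I).filter (fun y => I1.card < dI H I1 y + b), dI H I1 y := by
        refine sum_le_sum (fun y hy => ?_)
        have := (mem_filter.1 hy).2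
        omega
    _ ≤ ∑ y, dI H I1 y := sum_le_sum_of_subset (subset_univ _)
    _ = ∑ z ∈ I1, (univ.filter (fun y => H.Adj y z)).card := h1
    _ ≤ ∑ _z ∈ I1, s := sum_le_sum h2
    _ = s * I1.card := by rw [sum_const, smul_eq_mul, mul_comm]

/-- the closed set `T` is embedded outside `I1 ⊆ I`, `|I1| = |A \ T|`, then `A \ T` into `I1` -/
theorem tpart (hH : TF H) {I : Finset W} {s : ℕ} (hI : MaxInd H I s) {T : Finset V} (hTA : T ⊆ A)
    (hcl : Closed G A T) {b : ℕ} (hB : ((A \ T).filter (fun y => 0 < dg G T y)).card ≤ b)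
    (hq : A.card ≤ s + T.card) (hbs : b ≤ (A \ T).card)
    (hemb : ∀ Z : Finset W, Z.card * ((A \ T).card + 1 - b) ≤ s * (A \ T).card →
      ∀ I1 ⊆ I, I1.card = (A \ T).card →
      ∃ f : V → W, Emb G H T f ∧ ∀ v ∈ T, f v ∉ I1 ∪ Z) :
    ∃ f : V → W, Emb G H A f := by
  have hc := card_sdiff_add_card_eq_card hTA
  obtain ⟨I1, hI1, hI1c⟩ := exists_subset_card_eq (s := I) (n := (A \ T).card)
    (by rw [hI.card]; omega)
  have hZ := card_Z hH hI I1 b
  rw [hI1c] at hZ
  obtain ⟨f, hf, hfZ⟩ := hemb _ hZ I1 hI1 hI1c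
  refine t_ISO V W G A T H I1 f b hTA hcl (fun x hx y hy => hI.ind x (hI1 hx) y (hI1 hy))
    (by rw [hI1c]) hf (fun x hx hxI => hfZ x hx (mem_union_left _ hxI)) hB ?_
  intro x hx _
  rw [hI1c]
  by_cases hxI : f x ∈ I
  · have h0 : dI H I1 (f x) = 0 := by
      unfold dI
      rw [card_eq_zero, filter_eq_empty_iff]
      exact fun {z} hz => hI.ind _ hxI _ (hI1 hz)
    omega
  · by_contra hlt
    refine hfZ x hx (mem_union_right _ (mem_filter.2 ⟨mem_sdiff.2 ⟨mem_univ _, hxI⟩, ?_⟩))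
    omega

/-- the inequalities -/
lemma arith {k s t E ET b N z ST : ℕ} (hs4 : 4 ≤ s) (hsk : s < k) (hN : 3 * E ≤ 6 * k + N)
    (hN2 : N < 3 * s + k) (hE : 3 * k ≤ E) (hST : ST + 3 * (k - t) ≤ E) (hb : b + ET = ST)
    (hb1 : 1 ≤ b) (htk : t < k) (hq : k ≤ s + t) (hT : 4 * t + 2 * s ≤ ET + 2 * k + 2)
    (hz : z * (k - t + 1 - b) ≤ s * (k - t)) :
    b ≤ k - t ∧ 2 * t + ET + 2 * (k - t) + 2 * z ≤ 2 * N ∧ 3 * ET + (k - t) + z ≤ 6 * t + N := by
  obtain ⟨r, rfl⟩ : ∃ r, k = t + r := ⟨k - t, by omega⟩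
  have hr : t + r - t = r := by omega
  rw [hr] at hz hST ⊢
  have hbr : b + 1 ≤ r := by omega
  obtain ⟨D, hD⟩ : ∃ D, r + 1 = D + b := ⟨r + 1 - b, by omega⟩
  have hD' : r + 1 - b = D := by omega
  rw [hD'] at hz
  have hz2 : z + 1 ≤ s + 2 * b := by
    by_contra hlt
    have h1 : s + 2 * b ≤ z := by omega
    have h2 : (s + 2 * b) * D ≤ z * D := Nat.mul_le_mul_right _ h1
    have h3 : s ≤ 2 * D + 1 := by omega
    have h4 : (s + 2 * b) * D ≤ s * r := h2.trans hz
    obtain ⟨c, rfl⟩ : ∃ c, b = c + 1 := ⟨b - 1, by omega⟩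
    have h5 : r = D + c := by omega
    have h6 : s * c ≤ (2 * D + 1) * c := Nat.mul_le_mul_right _ h3
    rw [h5] at h4
    have h7 : 2 * D + c < c + 2 * D := by
      nlinarith
    omega
  refine ⟨by omega, by omega, by omega⟩

end Pool.Agent.SD95
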