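import Mathlib
import Pool.Agent.SD95.TPart

/-!
# MP_c6effb_co: `R(3,G) ≤ max (k + m, 6 μ(G))`
-/

set_option autoImplicit false

namespace Pool.Agent.SD95

open Finset Classical Pool.Agent.Sid86 Pool.Agent.SC

variable {V W : Type}

/-- there is no minimal counterexample -/
theorem no_ctx6 {G : SimpleGraph V} {A : Finset V} [Fintype W] [Nonempty W] {H : SimpleGraph W}
    (h : Ctx6 G A H) : False := by
  obtain ⟨I, s, hI⟩ := MAIN.exists_maxInd H
  have hs4 := h.low hI
  have hsk := h.lt_card hI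
  have hgr := h.greedy hI
  have hconn := h.conn
  have hE := h.dense
  have hbW := h.bnd.2 A (Subset.refl _)
  obtain ⟨T, hTA, hTne, hTconn, hTcl, hTt, hTe⟩ := clo (t0 := A.card - s) hconn h.nonempty
    (by omega) (by omega)
  have hTnA : T ≠ A := by
    rintro rfl
    omega
  have hc := card_sdiff_add_card_eq_card hTA
  have hpos : 0 < (A \ T).card := by
    rw [card_pos, sdiff_nonempty]
    exact fun hAT => hTnA (Subset.antisymm hTA hAT)
  -- degrees
  have hST : ∑ x ∈ T, dg G A x + 3 * (A \ T).card ≤ E2 G A := by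
    have e1 : ∑ x ∈ A \ T, dg G A x + ∑ x ∈ T, dg G A x = E2 G A := sum_sdiff hTA
    have e3 : (A \ T).card * 3 ≤ ∑ x ∈ A \ T, dg G A x := by
      rw [← smul_eq_mul, ← Finset.sum_const]
      exact sum_le_sum (fun x hx => h.deg3 (sdiff_subset hx))
    omega
  set b := ∑ x ∈ T, dg G (A \ T) x with hb
  have hbE : b + E2 G T = ∑ x ∈ T, dg G A x := by
    rw [hb]
    unfold E2
    rw [← sum_add_distrib]
    refine sum_congr rfl (fun x _ => ?_)
    have := BDC.dg_split G hTA x
    omega
  have hb1 : 1 ≤ b := by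
    obtain ⟨x, hx, y, hy, hxy⟩ := hconn T hTA hTne hTnA
    have : 1 ≤ dg G (A \ T) x := card_pos.2 ⟨y, mem_filter.2 ⟨hy, hxy⟩⟩
    exact this.trans (single_le_sum (f := fun x => dg G (A \ T) x) (fun _ _ => Nat.zero_le _) hx)
  have hB : ((A \ T).filter (fun y => 0 < dg G T y)).card ≤ b := by
    rw [hb, ← BDC.sum_comm' G (A \ T) T, card_eq_sum_ones]
    refine (sum_le_sum fun y hy => ?_).trans (sum_le_sum_of_subset (filter_subset _ _))
    exact (mem_filter.1 hy).2
  have hkt : A.card - T.card = (A \ T).card := by omega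
  have har : ∀ z : ℕ, z * ((A \ T).card + 1 - b) ≤ s * (A \ T).card →
      b ≤ (A \ T).card ∧ 2 * T.card + E2 G T + 2 * (A \ T).card + 2 * z ≤ 2 * Fintype.card W ∧
      3 * E2 G T + (A \ T).card + z ≤ 6 * T.card + Fintype.card W := by
    intro z hz
    have := arith (k := A.card) (s := s) (t := T.card) (E := E2 G A) (ET := E2 G T) (b := b)
      (N := Fintype.card W) (z := z) (ST := ∑ x ∈ T, dg G A x) hs4 hsk hbW hgr hE
      (by rw [hkt]; exact hST) hbE hb1 (by omega) (by omega) (by omega) (by rw [hkt]; exact hz)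
    rwa [hkt] at this
  refine h.no (tpart (A := A) h.tf hI hTA hTcl hB (by omega) (har 0 (by simp)).1 ?_)
  intro Z hZ I1 hI1 hI1c
  obtain ⟨-, h2, h3⟩ := har _ hZ
  obtain ⟨a, ha⟩ := MAIN.even_E2 G T
  -- the bound for `T`
  have hbT : Bnd G T (Fintype.card W - ((A \ T).card + Z.card)) := by
    refine ⟨by omega, fun U hU => ?_⟩
    rcases U.eq_empty_or_nonempty with rfl | hUne
    · simp [E2]
    · have h4 := grow' hTconn hU hUne
      have h5 := card_sdiff_add_card_eq_card hU
      omega
  have hU := card_union_le I1 Z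
  exact h.avoid hTA hTnA hbT (I1 ∪ Z) (by omega)

theorem arr_of_bnd (G : SimpleGraph V) : ∀ (k : ℕ) (A : Finset V), A.card = k →
    ∀ n, Bnd G A n → Arr G A n := by
  intro k
  induction k using Nat.strong_induction_on with
  | _ k ih =>
    intro A hA n hbnd W _ _ H0 hH0 hcard
    obtain ⟨H, hHH, hmax⟩ := (Set.toFinite {H : SimpleGraph W | TF H}).exists_le_maximal hH0
    by_contra hno0
    have hno : ¬ ∃ f : V → W, Emb G H A f := by
      rintro ⟨f, hf1, hf2⟩
      exact hno0 ⟨f, hf1, fun u hu v hv huv hadj => hf2 u hu v hv huv (hHH hadj)⟩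
    refine no_ctx6 (G := G) (A := A) (H := H)
      ⟨hmax.prop, ?_, hbnd.mono (Subset.refl _) hcard, hno, ?_⟩
    · intro x y hxy hnadj
      by_contra hcon
      push Not at hcon
      have hTF : TF (H ⊔ SimpleGraph.fromEdgeSet {s(x, y)}) :=
        tf_add hmax.prop hxy (fun z hz => hcon z hz.1 hz.2)
      have hle := hmax.le_of_ge hTF le_sup_left
      apply hnadj
      apply hle
      rw [SimpleGraph.sup_adj]
      right
      rw [SimpleGraph.fromEdgeSet_adj]
      exact ⟨rfl, hxy⟩
    · intro B hB hBA n' hb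
      have hlt : B.card < k := by
        rw [← hA]
        exact card_lt_card ⟨hB, fun h => hBA (Subset.antisymm hB h)⟩
      exact ih _ hlt B rfl n' hb

end Pool.Agent.SD95
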