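import Mathlib
import Pool.Agent.SC.MAIN
import Pool.Agent.SC.CONN
import Pool.Agent.SC.LOW
import Pool.Agent.SC.TUP
import Pool.Agent.SC.RG1
import Pool.Agent.SC.CLO
import Pool.Agent.SC.BDC
import Pool.Agent.SC.ISO
import Pool.Agent.SC.INN
import Pool.Agent.SC.CNT
import Pool.Agent.SC.ZPR
import Pool.Agent.SC.CAM
import Pool.Agent.SC.CB1
import Pool.Agent.SC.ARI
import Pool.Agent.SC.CB2

/-!
# MP_c6effb_co: `R(3,G) ≤ k + m` for all graphs of maximum average degree at most 3
-/

set_option autoImplicit false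

namespace Pool.Agent.SD95

open Finset Classical Pool.Agent.Sid86 Pool.Agent.SC

variable {V W : Type} {G : SimpleGraph V} {A : Finset V} [Fintype W] [Nonempty W]
  {H : SimpleGraph W}

/-- if `G[A]` has average degree exactly 3, all charges are 0 -/
lemma tight (h : Ctx G A H) (hE : E2 G A ≤ 3 * A.card) {x : V} (hx : x ∈ A)
    (hx2 : dg G A x ≠ 2) : 6 + t2 G A x = 2 * dg G A x := by
  set N2 := A.filter (fun v => dg G A v = 2) with hN2
  have hcount : ∑ x ∈ A \ N2, t2 G A x = 2 * N2.card := by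
    have e1 : ∑ x ∈ A \ N2, t2 G A x = ∑ v ∈ N2, ((A \ N2).filter (fun x => G.Adj x v)).card := by
      unfold t2
      exact sum_card_bipartiteAbove_eq_sum_card_bipartiteBelow (fun x y => G.Adj x y)
    rw [e1]
    have e2 : ∀ v ∈ N2, ((A \ N2).filter (fun x => G.Adj x v)).card = 2 := by
      intro v hv
      have hv' := mem_filter.1 hv
      rw [← hv'.2]
      unfold dg
      congr 1
      ext x
      simp only [mem_filter, mem_sdiff]
      constructor
      · rintro ⟨⟨hxA, _⟩, hxv⟩
        exact ⟨hxA, hxv.symm⟩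
      · rintro ⟨hxA, hvx⟩
        refine ⟨⟨hxA, ?_⟩, hvx.symm⟩
        intro hxN
        rw [hN2, mem_filter] at hxN
        exact h.config1 hxN.1 hv'.1 hvx.symm hv'.2 (by rw [hxN.2]; omega)
    rw [sum_congr rfl e2]
    simp [mul_comm]
  have hle : ∀ y ∈ A \ N2, 6 + t2 G A y ≤ 2 * dg G A y := by
    intro y hy
    rw [mem_sdiff] at hy
    exact h.charge hy.1 (fun hd => hy.2 (mem_filter.2 ⟨hy.1, hd⟩))
  have h2 : ∑ x ∈ N2, dg G A x = 2 * N2.card := by
    have : ∑ x ∈ N2, dg G A x = ∑ _x ∈ N2, 2 :=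
      sum_congr rfl (fun x hx => (mem_filter.1 hx).2)
    rw [this, sum_const, smul_eq_mul, mul_comm]
  have h3 : ∑ x ∈ A \ N2, dg G A x + ∑ x ∈ N2, dg G A x = ∑ x ∈ A, dg G A x :=
    sum_sdiff (filter_subset _ _)
  have h4 : (A \ N2).card + N2.card = A.card := card_sdiff_add_card_eq_card (filter_subset _ _)
  have hE' : ∑ x ∈ A, dg G A x ≤ 3 * A.card := hE
  have h5 : ∑ y ∈ A \ N2, (6 + t2 G A y) = ∑ y ∈ A \ N2, 2 * dg G A y := by
    have l := sum_le_sum hle
    rw [sum_add_distrib, hcount, ← mul_sum, sum_const, smul_eq_mul] at l ⊢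
    omega
  exact (sum_eq_sum_iff_of_le hle).1 h5 x (mem_sdiff.2 ⟨hx, fun hxN => hx2 (mem_filter.1 hxN).2⟩)

lemma deg_cases (h : Ctx G A H) (hE : E2 G A ≤ 3 * A.card) {x : V} (hx : x ∈ A) :
    dg G A x = 2 ∨ (dg G A x = 3 ∧ t2 G A x = 0) ∨ (dg G A x = 6 ∧ t2 G A x = 6) := by
  by_cases hx2 : dg G A x = 2
  · exact Or.inl hx2
  · right
    have ht := tight h hE hx hx2
    have hd := h.deg2 hx
    have hle : t2 G A x ≤ dg G A x := card_le_card (t2_sub x)
    have hsub : ∀ n ≤ t2 G A x, ∃ T ⊆ A.filter (fun y => G.Adj x y),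
        (∀ v ∈ T, dg G A v = 2) ∧ T.card = n := by
      intro n hn
      obtain ⟨T, hT, hTc⟩ := exists_subset_card_eq hn
      exact ⟨T, hT.trans (t2_sub x), fun v hv =>
        (mem_filter.1 (mem_filter.1 (hT hv)).1).2, hTc⟩
    rcases (show dg G A x = 3 ∨ dg G A x = 4 ∨ dg G A x = 5 ∨ dg G A x = 6 by omega) with
      h3 | h4 | h5 | h6
    · exact Or.inl ⟨h3, by omega⟩
    · exfalso
      obtain ⟨T, hT, hT2, hTc⟩ := hsub 2 (by omega)
      exact h.config2 hx hT hT2 hTc h4
    · exfalso
      obtain ⟨T, hT, hT2, hTc⟩ := hsub 4 (by omega)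
      exact h.config4 hx hT hT2 hTc h5
    · exact Or.inr ⟨h6, by omega⟩

/-- a vertex of degree 6 with six neighbours of degree 2, if `|A| ≥ 9` -/
lemma config6 (h : Ctx G A H) (hE : 3 * A.card ≤ E2 G A) {u : V} (hu : u ∈ A)
    (h2 : ∀ v ∈ A.filter (fun x => G.Adj u x), dg G A v = 2) (hdu : dg G A u = 6)
    (hk : 9 ≤ A.card) : False := by
  set T := A.filter (fun x => G.Adj u x) with hTdef
  have hT : T ⊆ A.filter (fun x => G.Adj u x) := Subset.refl _
  have hTc : T.card = 6 := hdu
  obtain ⟨Z, hZc, hR⟩ := h.rich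
  obtain ⟨f, c, hf, hfZ, hc, hno⟩ := h.setup hu hT h2 (h.indepT hT h2) (Z := Z) (by omega)
  have huT : u ∉ T := by
    intro hcon
    exact G.loopless.irrefl _ (mem_filter.1 (hT hcon)).2
  have hTA : T ⊆ A := fun x hx => (mem_filter.1 (hT hx)).1
  set S := insert u T with hS
  have hSA : S ⊆ A := insert_subset hu hTA
  have hSc : S.card = 7 := by rw [hS, card_insert_of_notMem huT, hTc]
  set F : Finset W := univ \ (A \ S).image f with hF
  have hFmem : ∀ y, y ∈ F ↔ ∀ x ∈ A \ S, f x ≠ y := by
    intro y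
    rw [hF, mem_sdiff, mem_image]
    constructor
    · rintro ⟨-, h1⟩ x hx hxy
      exact h1 ⟨x, hx, hxy⟩
    · intro h1
      exact ⟨mem_univ _, fun ⟨x, hx, hxy⟩ => h1 x hx hxy⟩
  have hZF : Z ⊆ F := by
    intro z hz
    rw [hFmem]
    intro x hx hxz
    exact hfZ x hx (hxz ▸ hz)
  have hFc : F.card + A.card = Fintype.card W + 7 := by
    have e1 : ((A \ S).image f).card = (A \ S).card := card_image_of_injOn hf.1
    have e2 : (A \ S).card + S.card = A.card := card_sdiff_add_card_eq_card hSA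
    have e3 : F.card + ((A \ S).image f).card = Fintype.card W := by
      rw [hF, card_sdiff_add_card_eq_card (subset_univ _), card_univ]
    omega
  set t : W → V → Finset W := fun y v => F.filter (fun z => z ≠ y ∧ ¬ H.Adj z y ∧
    ¬ H.Adj z (f (c v))) with ht
  have ht2 : ∀ y v, 2 ≤ (t y v).card := by
    intro y v
    obtain ⟨z1, hz1, z2, hz2, hz12, hz1', hz2'⟩ := rich_two h.tf hR y (f (c v))
    have : ({z1, z2} : Finset W) ⊆ t y v := by
      intro z hz
      simp only [mem_insert, mem_singleton] at hz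
      rcases hz with rfl | rfl
      · exact mem_filter.2 ⟨hZF hz1, hz1'⟩
      · exact mem_filter.2 ⟨hZF hz2, hz2'⟩
    calc 2 = ({z1, z2} : Finset W).card := (card_pair hz12).symm
      _ ≤ _ := card_le_card this
  -- the violating sets
  have hbad : ∀ y ∈ F, ∃ s ⊆ T, 3 ≤ s.card ∧ ∀ v ∈ s, (t y v).card ≤ 5 := by
    intro y hy
    have hno' := hno y ((hFmem y).1 hy) (by
      intro x hx hux
      exfalso
      rw [mem_sdiff, hS, mem_insert, not_or] at hx
      exact hx.2.2 (mem_filter.2 ⟨hx.1, hux⟩))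
    have hall : ¬ ∀ s : Finset {v // v ∈ T}, s.card ≤ (s.biUnion (fun v => t y v.1)).card := by
      intro hcon
      obtain ⟨g, hg1, hg2⟩ := (Finset.all_card_le_biUnion_card_iff_exists_injective
        (fun v : {v // v ∈ T} => t y v.1)).1 hcon
      apply hno'
      refine ⟨fun v => if hv : v ∈ T then g ⟨v, hv⟩ else y, ?_, ?_⟩
      · intro x hx x' hx' hxx
        have hx1 : x ∈ T := hx
        have hx2 : x' ∈ T := hx'
        simp only [hx1, hx2, dif_pos] at hxx
        exact congrArg Subtype.val (hg1 hxx)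
      · intro v hv
        simp only [hv, dif_pos]
        have := hg2 ⟨v, hv⟩
        rw [ht, mem_filter] at this
        exact ⟨(hFmem _).1 this.1, this.2⟩
    push Not at hall
    obtain ⟨s, hs⟩ := hall
    have hsne : s.Nonempty := by
      rw [nonempty_iff_ne_empty]
      rintro rfl
      simp at hs
    have hsT : s.card ≤ 6 := by
      have : s.card ≤ Fintype.card {v // v ∈ T} := card_le_univ s
      rwa [Fintype.card_coe, hTc] at this
    have hle : ∀ v ∈ s, (t y v.1).card ≤ (s.biUnion (fun v => t y v.1)).card := by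
      intro v hv
      exact card_le_card (subset_biUnion_of_mem (fun v : {v // v ∈ T} => t y v.1) hv)
    obtain ⟨v0, hv0⟩ := hsne
    have h3 : 3 ≤ s.card := by
      have := ht2 y v0.1
      have := hle v0 hv0
      omega
    refine ⟨s.image (fun v => v.1), ?_, ?_, ?_⟩
    · intro v hv
      obtain ⟨v', -, rfl⟩ := mem_image.1 hv
      exact v'.2
    · rwa [card_image_of_injective _ Subtype.val_injective]
    · intro v hv
      obtain ⟨v', hv', rfl⟩ := mem_image.1 hv
      have := hle v' hv'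
      omega
  obtain ⟨c5, hc5, hc5Z, -⟩ := hR (f u)
  have hb5 : ∀ i, ∃ s ⊆ T, 3 ≤ s.card ∧ ∀ v ∈ s, (t (c5 i) v).card ≤ 5 :=
    fun i => hbad _ (hZF (hc5Z i))
  choose s hsT hs3 hs5 using hb5
  -- consecutive violating sets are disjoint
  have hdis : ∀ i, Disjoint (s i) (s (i + 1)) := by
    intro i
    rw [disjoint_left]
    intro v hv1 hv2
    have l1 := hs5 i v hv1
    have l2 := hs5 (i + 1) v hv2
    have hsub : F.filter (fun z => ¬ H.Adj z (f (c v))) ⊆
        (t (c5 i) v ∪ t (c5 (i + 1)) v) ∪ {c5 i, c5 (i + 1)} := by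
      intro z hz
      rw [mem_filter] at hz
      by_cases h1 : z = c5 i
      · simp [h1]
      by_cases h2' : z = c5 (i + 1)
      · simp [h2']
      by_cases h3 : H.Adj z (c5 i)
      · by_cases h4 : H.Adj z (c5 (i + 1))
        · exact (h.tf _ _ _ h3 (hc5 i) h4).elim
        · exact mem_union_left _ (mem_union_right _ (mem_filter.2 ⟨hz.1, h2', h4, hz.2⟩))
      · exact mem_union_left _ (mem_union_left _ (mem_filter.2 ⟨hz.1, h1, h3, hz.2⟩))
    have hc12 : (F.filter (fun z => ¬ H.Adj z (f (c v)))).card ≤ 12 := by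
      refine (card_le_card hsub).trans ?_
      have e1 := card_union_le (t (c5 i) v ∪ t (c5 (i + 1)) v) {c5 i, c5 (i + 1)}
      have e2 := card_union_le (t (c5 i) v) (t (c5 (i + 1)) v)
      have e3 : ({c5 i, c5 (i + 1)} : Finset W).card ≤ 2 := card_le_two
      omega
    have hcF : F.card ≤ (F.filter (fun z => ¬ H.Adj z (f (c v)))).card +
        (univ.filter (fun z => H.Adj (f (c v)) z)).card := by
      have e1 : F ⊆ (F.filter (fun z => ¬ H.Adj z (f (c v)))) ∪
          (univ.filter (fun z => H.Adj (f (c v)) z)) := by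
        intro z hz
        by_cases h1 : H.Adj z (f (c v))
        · exact mem_union_right _ (mem_filter.2 ⟨mem_univ _, h1.symm⟩)
        · exact mem_union_left _ (mem_filter.2 ⟨hz, h1⟩)
      exact (card_le_card e1).trans (card_union_le _ _)
    have hnb := h.nbhd (f (c v))
    have hcard := h.card
    omega
  -- so they alternate
  have halt : ∀ i, s (i + 1) = T \ s i := by
    intro i
    have e1 : s (i + 1) ⊆ T \ s i := by
      intro v hv
      exact mem_sdiff.2 ⟨hsT _ hv, fun hv' => disjoint_left.1 (hdis i) hv' hv⟩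
    refine eq_of_subset_of_card_le e1 ?_
    have e2 := card_sdiff_add_card_eq_card (hsT i)
    have := hs3 i
    have := hs3 (i + 1)
    omega
  have h2s : ∀ i, s (i + 1 + 1) = s i := by
    intro i
    rw [halt (i + 1), halt i, Finset.sdiff_sdiff_eq_self (hsT i)]
  have e5 : s (0 + 1) = s 0 := by
    have a1 := h2s 0
    have a2 := h2s (0 + 1 + 1)
    have e : (0 : Fin 5) + 1 + 1 + 1 + 1 = 0 - 1 := by decide
    have a3 := h2s (0 + 1)
    have e' : (0 : Fin 5) + 1 + 1 + 1 + 1 + 1 = 0 := by decide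
    have a4 := h2s (0 + 1 + 1 + 1)
    rw [e'] at a4
    rw [a3] at a4
    exact a4.symm
  have hd := hdis 0
  rw [e5] at hd
  have h0 := hs3 0
  rw [disjoint_self] at hd
  rw [hd] at h0
  simp at h0

/-- a vertex of degree 6 with six neighbours of degree 2, if `|A| ≤ 8` -/
lemma config6' (h : Ctx G A H) (hE : 3 * A.card ≤ E2 G A) {u : V} (hu : u ∈ A)
    (h2 : ∀ v ∈ A.filter (fun x => G.Adj u x), dg G A v = 2) (hdu : dg G A u = 6)
    (hk : A.card ≤ 8) : False := by
  set T := A.filter (fun x => G.Adj u x) with hTdef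
  have hTc : T.card = 6 := hdu
  have hTT := h.indepT (T := T) (Subset.refl _) h2
  have huT : u ∉ T := by
    intro hcon
    exact G.loopless.irrefl _ (mem_filter.1 hcon).2
  have hTA : T ⊆ A := filter_subset _ _
  have hSA : insert u T ⊆ A := insert_subset hu hTA
  have hSc : (insert u T).card = 7 := by rw [card_insert_of_notMem huT, hTc]
  have hRc : (A \ insert u T).card ≤ 1 := by
    have := card_sdiff_add_card_eq_card hSA
    omega
  have hA7 : 7 ≤ A.card := hSc ▸ card_le_card hSA
  obtain ⟨a, b, hab⟩ := h.edge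
  set P : Finset W := univ.filter (fun z => ¬ H.Adj a z ∧ ¬ H.Adj b z) with hP
  have hPc : T.card ≤ P.card := by
    have e1 : (univ : Finset W) ⊆ (P ∪ univ.filter (fun z => H.Adj a z)) ∪
        univ.filter (fun z => H.Adj b z) := by
      intro z _
      simp only [hP, mem_union, mem_filter, mem_univ, true_and]
      tauto
    have e2 := (card_le_card e1).trans (card_union_le _ _)
    have e3 := card_union_le P (univ.filter (fun z => H.Adj a z))
    rw [card_univ] at e2
    have := h.nbhd a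
    have := h.nbhd b
    have := h.card
    omega
  obtain ⟨g, hg, hgi⟩ := exists_injOn hPc
  have hga : ∀ v ∈ T, g v ≠ a ∧ g v ≠ b ∧ ¬ H.Adj a (g v) ∧ ¬ H.Adj b (g v) := by
    intro v hv
    have h1 := hg v hv
    rw [hP, mem_filter] at h1
    refine ⟨?_, ?_, h1.2.1, h1.2.2⟩
    · intro he
      exact h1.2.2 (he ▸ hab.symm)
    · intro he
      exact h1.2.1 (he ▸ hab)
  have hR : ∀ x ∈ A, x ≠ u → x ∉ T → ∀ y ∈ A, y ≠ u → y ∉ T → x = y := by
    intro x hx hxu hxT y hy hyu hyT
    refine card_le_one.1 hRc x ?_ y ?_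
    · exact mem_sdiff.2 ⟨hx, by simp [hxu, hxT]⟩
    · exact mem_sdiff.2 ⟨hy, by simp [hyu, hyT]⟩
  apply h.no
  refine ⟨fun x => if x = u then a else if x ∈ T then g x else b, ?_, ?_⟩
  · intro x hx y hy hxy
    have hx' : x ∈ A := hx
    have hy' : y ∈ A := hy
    simp only at hxy
    by_cases hxu : x = u <;> by_cases hyu : y = u
    · rw [hxu, hyu]
    · rw [if_pos hxu, if_neg hyu] at hxy
      by_cases hyT : y ∈ T
      · rw [if_pos hyT] at hxy
        exact absurd hxy.symm (hga y hyT).1
      · rw [if_neg hyT] at hxy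
        exact absurd hxy hab.ne
    · rw [if_neg hxu, if_pos hyu] at hxy
      by_cases hxT : x ∈ T
      · rw [if_pos hxT] at hxy
        exact absurd hxy (hga x hxT).1
      · rw [if_neg hxT] at hxy
        exact absurd hxy.symm hab.ne
    · rw [if_neg hxu, if_neg hyu] at hxy
      by_cases hxT : x ∈ T <;> by_cases hyT : y ∈ T
      · rw [if_pos hxT, if_pos hyT] at hxy
        exact hgi hxT hyT hxy
      · rw [if_pos hxT, if_neg hyT] at hxy
        exact absurd hxy (hga x hxT).2.1
      · rw [if_neg hxT, if_pos hyT] at hxy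
        exact absurd hxy.symm (hga y hyT).2.1
      · exact hR x hx' hxu hxT y hy' hyu hyT
  · intro x hx y hy hxy
    simp only
    by_cases hxu : x = u <;> by_cases hyu : y = u
    · rw [hxu, hyu] at hxy
      exact absurd hxy (G.loopless.irrefl _)
    · have hyT : y ∈ T := mem_filter.2 ⟨hy, hxu ▸ hxy⟩
      rw [if_pos hxu, if_neg hyu, if_pos hyT]
      exact (hga y hyT).2.2.1
    · have hxT : x ∈ T := mem_filter.2 ⟨hx, hyu ▸ hxy.symm⟩
      rw [if_neg hxu, if_pos hyu, if_pos hxT]
      exact fun hc => (hga x hxT).2.2.1 hc.symm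
    · rw [if_neg hxu, if_neg hyu]
      by_cases hxT : x ∈ T <;> by_cases hyT : y ∈ T
      · exact absurd hxy (hTT x hxT y hyT)
      · rw [if_pos hxT, if_neg hyT]
        exact fun hc => (hga x hxT).2.2.2 hc.symm
      · rw [if_neg hxT, if_pos hyT]
        exact (hga y hyT).2.2.2
      · rw [hR x hx hxu hxT y hy hyu hyT] at hxy
        exact absurd hxy (G.loopless.irrefl _)

/-- there is no minimal counterexample of average degree at most 3 -/
theorem no_ctx3 (h : Ctx G A H) (hne : A.Nonempty) (hE : E2 G A ≤ 3 * A.card) : False := by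
  have hd := h.dense
  have h6 : ∀ x ∈ A, dg G A x ≠ 6 := by
    intro x hx h6
    rcases deg_cases h hE hx with h2 | ⟨h3, -⟩ | ⟨-, ht⟩
    · omega
    · omega
    · have hN : ∀ v ∈ A.filter (fun y => G.Adj x y), dg G A v = 2 := by
        have e1 := t2_sub (G := G) (A := A) x
        have e2 := eq_of_subset_of_card_le e1 (by
          have : (A.filter (fun y => G.Adj x y)).card = 6 := h6
          have : ((A.filter (fun v => dg G A v = 2)).filter (fun y => G.Adj x y)).card = 6 := ht
          omega)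
        intro v hv
        rw [← e2] at hv
        exact (mem_filter.1 (mem_filter.1 hv).1).2
      rcases Nat.lt_or_ge A.card 9 with hlt | hge
      · exact config6' h hd hx hN h6 (by omega)
      · exact config6 h hd hx hN h6 hge
  have h3 : ∀ x ∈ A, dg G A x ≤ 3 := by
    intro x hx
    rcases deg_cases h hE hx with h2 | ⟨h3, -⟩ | ⟨h66, -⟩
    · omega
    · omega
    · exact absurd h66 (h6 x hx)
  exact SC.no_ctx t_CON t_LOW (t_RG1 t_TUP) t_CLO t_BDC (t_CAM t_BDC t_ISO)
    (t_CB1 t_BDC t_ISO t_ZPR) (t_CB2 t_BDC t_ISO t_INN t_CNT t_ZPR t_ARI) G A H h hne h3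

theorem good_of_mad3 {V : Type} (G : SimpleGraph V) : ∀ (n : ℕ) (A : Finset V), A.card = n →
    (∀ S ⊆ A, E2 G S ≤ 3 * S.card) → Good G A := by
  intro n
  induction n using Nat.strong_induction_on with
  | _ n ih =>
    intro A hA hsp W _ _ H0 hH0 hcard
    by_cases hAe : A = ∅
    · subst hAe
      obtain ⟨w⟩ := ‹Nonempty W›
      exact ⟨fun _ => w, by simp [Set.InjOn], by simp⟩
    have hAne : A.Nonempty := nonempty_iff_ne_empty.2 hAe
    obtain ⟨H, hHH, hmax⟩ := (Set.toFinite {H : SimpleGraph W | TF H}).exists_le_maximal hH0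
    by_contra hno0
    have hno : ¬ ∃ f : V → W, Emb G H A f := by
      rintro ⟨f, hf1, hf2⟩
      exact hno0 ⟨f, hf1, fun u hu v hv huv hadj => hf2 u hu v hv huv (hHH hadj)⟩
    have hctx : Ctx G A H := by
      refine ⟨hmax.prop, ?_, hcard, hno, ?_⟩
      · intro x y hxy hnadj
        by_contra hcon
        push Not at hcon
        have hTF : TF (H ⊔ SimpleGraph.fromEdgeSet {s(x, y)}) :=
          tf_add hmax.prop hxy (fun z hz => hcon z hz.1 hz.2)
        have hle := hmax.le_of_ge hTF le_sup_left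
        apply hnadj
        apply hle
        rw [SimpleGraph.sup_adj]
        right
        rw [SimpleGraph.fromEdgeSet_adj]
        exact ⟨rfl, hxy⟩
      · intro S hS hSne
        have hlt : (A \ S).card < n := by
          have := card_sdiff_add_card_eq_card hS
          have := card_pos.2 hSne
          omega
        exact ih _ hlt (A \ S) rfl (fun S' hS' => hsp S' (hS'.trans sdiff_subset))
    exact no_ctx3 hctx hAne (hsp A (Subset.refl _))

end Pool.Agent.SD95
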