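import Mathlib
import Pool.Agent.SD95.Mad
import Pool.Agent.SD95.Fin

/-!
# MP_c6effb_co: translation of the results to `edgeSet`, `induce` and homomorphisms
-/

set_option autoImplicit false

namespace Pool.Agent.SD95

open Finset Classical Pool.Agent.Sid86 Pool.Agent.SC

/-- `E2` counts the edges inside `S` twice -/
lemma E2_eq {V : Type} [Fintype V] (G : SimpleGraph V) (S : Finset V) :
    E2 G S = 2 * (G.induce (S : Set V)).edgeSet.ncard := by
  have h1 := (G.induce (S : Set V)).sum_degrees_eq_twice_card_edges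
  have h2 : (G.induce (S : Set V)).edgeSet.ncard = (G.induce (S : Set V)).edgeFinset.card := by
    rw [← SimpleGraph.coe_edgeFinset, Set.ncard_coe_finset]
  rw [h2, ← h1]
  unfold E2
  rw [← Finset.sum_coe_sort S]
  refine Finset.sum_congr rfl (fun x _ => ?_)
  rw [← SimpleGraph.card_neighborFinset_eq_degree]
  unfold dg
  symm
  refine Finset.card_bij (fun y _ => y.1) ?_ ?_ ?_
  · intro y hy
    rw [SimpleGraph.mem_neighborFinset, SimpleGraph.comap_adj] at hy
    exact mem_filter.2 ⟨y.2, hy⟩
  · intro y _ z _ hyz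
    exact Subtype.ext hyz
  · intro y hy
    rw [mem_filter] at hy
    exact ⟨⟨y, hy.1⟩, by rw [SimpleGraph.mem_neighborFinset, SimpleGraph.comap_adj]; exact hy.2,
      rfl⟩

lemma E2_univ {V : Type} [Fintype V] (G : SimpleGraph V) :
    E2 G univ = 2 * G.edgeSet.ncard := by
  have h1 := G.sum_degrees_eq_twice_card_edges
  have h2 : G.edgeSet.ncard = G.edgeFinset.card := by
    rw [← SimpleGraph.coe_edgeFinset, Set.ncard_coe_finset]
  rw [h2, ← h1]
  unfold E2
  refine Finset.sum_congr rfl (fun x _ => ?_)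
  rw [← SimpleGraph.card_neighborFinset_eq_degree]
  unfold dg
  congr 1
  ext y
  simp

lemma out {V : Type} [Fintype V] (G : SimpleGraph V) (n : ℕ) (hn : Fintype.card V ≤ n)
    (hgood : ∀ (W : Type) [Fintype W] [Nonempty W] (H : SimpleGraph W), TF H →
      n ≤ Fintype.card W → ∃ f : V → W, Emb G H univ f) (H : SimpleGraph (Fin n)) :
    ¬ H.CliqueFree 3 ∨ ∃ f : G →g Hᶜ, Function.Injective f := by
  by_cases hH : H.CliqueFree 3
  · right
    by_cases hV : IsEmpty V
    · exact ⟨⟨fun v => (hV.false v).elim, fun {a} => (hV.false a).elim⟩,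
        fun a => (hV.false a).elim⟩
    · rw [not_isEmpty_iff] at hV
      have hpos : 0 < Fintype.card V := Fintype.card_pos
      have : Nonempty (Fin n) := ⟨⟨0, by omega⟩⟩
      obtain ⟨f, hf1, hf2⟩ := hgood (Fin n) H
        (fun a b c hab hbc hac => by
          exact hH {a, b, c} (SimpleGraph.is3Clique_iff.2 ⟨a, b, c, hab, hac, hbc, rfl⟩))
        (by rw [Fintype.card_fin])
      have hinj : Function.Injective f := by
        intro x y hxy
        exact hf1 (by simp) (by simp) hxy
      refine ⟨⟨f, ?_⟩, hinj⟩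
      intro a b hab
      rw [SimpleGraph.compl_adj]
      exact ⟨fun h => hab.ne (hinj h), hf2 a (mem_univ _) b (mem_univ _) hab⟩
  · exact Or.inl hH

lemma conn_univ {V : Type} [Fintype V] {G : SimpleGraph V} (hG : G.Connected) :
    Conn G (univ : Finset V) := by
  intro X _ hX hXu
  by_contra hcon
  push Not at hcon
  obtain ⟨x, hx⟩ := hX
  apply hXu
  rw [eq_univ_iff_forall]
  intro y
  obtain ⟨p⟩ := hG.preconnected x y
  induction p with
  | nil => exact hx
  | cons hadj _ ih =>
    rename_i u v w _
    apply ih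
    by_contra hv
    exact hcon u hx v (mem_sdiff.2 ⟨mem_univ _, hv⟩) hadj

/-- `e(U) - |U| ≤ m - k` in a connected graph -/
lemma conn_edges {V : Type} [Fintype V] {G : SimpleGraph V} (hG : G.Connected) (U : Finset V)
    (hU : U.Nonempty) : (G.induce (U : Set V)).edgeSet.ncard + Fintype.card V ≤
      G.edgeSet.ncard + U.card := by
  have h1 := grow' (conn_univ hG) (subset_univ U) hU
  rw [E2_eq, E2_univ] at h1
  have h2 := card_sdiff_add_card_eq_card (subset_univ U)
  rw [card_univ] at h2
  omega

end Pool.Agent.SD95
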